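import Mathlib

/-!
# Finitely supported `ℕ × ℕ` matrices and the monoid `V(R)`

For a (not necessarily unital) ring `R` we define the ring `MInf R` of `ℕ × ℕ` matrices over `R`
with finitely many nonzero entries, Murray-von Neumann equivalence of its idempotents, and the
commutative monoid `V R`.
-/

namespace Pool.Agent.H10

open Finset

universe u v w

/-- The additive group of `ℕ × ℕ` matrices over `R` with finitely many nonzero entries. -/
def finSuppMat (R : Type u) [NonUnitalRing R] : AddSubgroup (ℕ → ℕ → R) where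
  carrier := {a | {p : ℕ × ℕ | a p.1 p.2 ≠ 0}.Finite}
  zero_mem' := by simp
  add_mem' := by
    intro a b ha hb
    refine (ha.union hb).subset ?_
    intro p hp
    by_contra hcon
    simp only [Set.mem_union, Set.mem_ofPred_eq, not_or, not_not] at hcon hp
    exact hp (by simp [hcon.1, hcon.2])
  neg_mem' := by
    intro a ha
    refine ha.subset ?_
    intro p hp
    simpa using hp

/-- `M_∞(R)`: the `ℕ × ℕ` matrices over `R` with finitely many nonzero entries. -/
def MInf (R : Type u) [NonUnitalRing R] : Type u := finSuppMat R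

namespace MInf

variable {R : Type u} [NonUnitalRing R]

noncomputable instance : AddCommGroup (MInf R) :=
  inferInstanceAs (AddCommGroup (finSuppMat R))

/-- The `(i, j)` entry of a matrix in `M_∞(R)`. -/
def entry (a : MInf R) (i j : ℕ) : R := a.1 i j

@[ext] theorem ext {a b : MInf R} (h : ∀ i j, a.entry i j = b.entry i j) : a = b :=
  Subtype.ext (funext fun i => funext fun j => h i j)

@[simp] theorem entry_zero (i j : ℕ) : (0 : MInf R).entry i j = 0 := rfl
@[simp] theorem entry_add (a b : MInf R) (i j : ℕ) :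
    (a + b).entry i j = a.entry i j + b.entry i j := rfl
@[simp] theorem entry_neg (a : MInf R) (i j : ℕ) : (-a).entry i j = -a.entry i j := rfl
@[simp] theorem entry_sub (a b : MInf R) (i j : ℕ) :
    (a - b).entry i j = a.entry i j - b.entry i j := by
  rw [sub_eq_add_neg, sub_eq_add_neg]; rfl

/-- `a` is supported in the box `[0,N) × [0,N)`. -/
def Bdd (a : MInf R) (N : ℕ) : Prop := ∀ i j, (N ≤ i ∨ N ≤ j) → a.entry i j = 0

theorem exists_bdd (a : MInf R) : ∃ N, a.Bdd N := by
  have h : {p : ℕ × ℕ | a.1 p.1 p.2 ≠ 0}.Finite := a.2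
  obtain ⟨M, hM⟩ := (h.image (fun p => p.1 + p.2)).bddAbove
  refine ⟨M + 1, fun i j hij => ?_⟩
  by_contra hne
  have := hM ⟨(i, j), hne, rfl⟩
  simp only at this
  omega

theorem Bdd.mono {a : MInf R} {N N' : ℕ} (h : a.Bdd N) (hN : N ≤ N') : a.Bdd N' :=
  fun i j hij => h i j (by omega)

/-- Build an element of `M_∞(R)` from a matrix supported in a box. -/
def ofBdd (f : ℕ → ℕ → R) (N : ℕ) (h : ∀ i j, (N ≤ i ∨ N ≤ j) → f i j = 0) : MInf R :=
  ⟨f, by
    refine ((Set.finite_Iio N).prod (Set.finite_Iio N)).subset ?_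
    intro p hp
    simp only [Set.mem_prod, Set.mem_Iio]
    by_contra hcon
    exact hp (h p.1 p.2 (by omega))⟩

@[simp] theorem entry_ofBdd (f : ℕ → ℕ → R) (N : ℕ) (h) (i j : ℕ) :
    (ofBdd f N h).entry i j = f i j := rfl

theorem finsum_eq_sum_range {a b : MInf R} {N : ℕ} (i j : ℕ)
    (h : ∀ k, N ≤ k → a.entry i k * b.entry k j = 0) :
    ∑ᶠ k, a.entry i k * b.entry k j = ∑ k ∈ range N, a.entry i k * b.entry k j := by
  apply finsum_eq_sum_of_support_subset
  intro k hk
  simp only [coe_range, Set.mem_Iio]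
  by_contra hcon
  exact hk (h k (by omega))

/-- Matrix multiplication in `M_∞(R)`. -/
noncomputable instance : Mul (MInf R) where
  mul a b := ⟨fun i j => ∑ᶠ k, a.entry i k * b.entry k j, by
    obtain ⟨N, hN⟩ := a.exists_bdd
    obtain ⟨N', hN'⟩ := b.exists_bdd
    refine ((Set.finite_Iio N).prod (Set.finite_Iio N')).subset ?_
    intro p hp
    simp only [Set.mem_prod, Set.mem_Iio]
    by_contra hcon
    apply hp
    have : ∀ k, a.entry p.1 k * b.entry k p.2 = 0 := by
      intro k
      by_cases h1 : N ≤ p.1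
      · rw [hN _ _ (Or.inl h1), zero_mul]
      · rw [hN' _ _ (Or.inr (by omega)), mul_zero]
    simp [this]⟩

theorem entry_mul_def (a b : MInf R) (i j : ℕ) :
    (a * b).entry i j = ∑ᶠ k, a.entry i k * b.entry k j := rfl

theorem entry_mul_left {a : MInf R} {N : ℕ} (ha : a.Bdd N) (b : MInf R) (i j : ℕ) :
    (a * b).entry i j = ∑ k ∈ range N, a.entry i k * b.entry k j := by
  rw [entry_mul_def, finsum_eq_sum_range]
  intro k hk
  rw [ha _ _ (Or.inr hk), zero_mul]

theorem entry_mul_right (a : MInf R) {b : MInf R} {N : ℕ} (hb : b.Bdd N) (i j : ℕ) :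
    (a * b).entry i j = ∑ k ∈ range N, a.entry i k * b.entry k j := by
  rw [entry_mul_def, finsum_eq_sum_range]
  intro k hk
  rw [hb _ _ (Or.inl hk), mul_zero]

theorem Bdd.mul {a b : MInf R} {N : ℕ} (ha : a.Bdd N) (hb : b.Bdd N) : (a * b).Bdd N := by
  intro i j hij
  rw [entry_mul_left ha]
  apply Finset.sum_eq_zero
  intro k _
  rcases hij with h | h
  · rw [ha _ _ (Or.inl h), zero_mul]
  · rw [hb _ _ (Or.inr h), mul_zero]

noncomputable instance : NonUnitalRing (MInf R) where
  left_distrib a b c := by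
    obtain ⟨N, hN⟩ := a.exists_bdd
    ext i j
    rw [entry_add, entry_mul_left hN, entry_mul_left hN, entry_mul_left hN,
      ← Finset.sum_add_distrib]
    exact Finset.sum_congr rfl fun k _ => by rw [entry_add, mul_add]
  right_distrib a b c := by
    obtain ⟨N, hN⟩ := c.exists_bdd
    ext i j
    rw [entry_add, entry_mul_right _ hN, entry_mul_right _ hN, entry_mul_right _ hN,
      ← Finset.sum_add_distrib]
    exact Finset.sum_congr rfl fun k _ => by rw [entry_add, add_mul]
  zero_mul a := by
    ext i j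
    rw [entry_mul_def]; simp
  mul_zero a := by
    ext i j
    rw [entry_mul_def]; simp
  mul_assoc a b c := by
    obtain ⟨N, hN⟩ := a.exists_bdd
    obtain ⟨N', hN'⟩ := c.exists_bdd
    ext i j
    rw [entry_mul_right _ hN', entry_mul_left hN]
    simp_rw [entry_mul_left hN, entry_mul_right _ hN', Finset.sum_mul, Finset.mul_sum]
    rw [Finset.sum_comm]
    exact Finset.sum_congr rfl fun k _ => Finset.sum_congr rfl fun l _ => by rw [mul_assoc]

/-- Transport of matrices along injections of the index sets: the entry at `(f i, g j)` is the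
entry of `a` at `(i, j)`; all entries outside the images of `f` and `g` are zero. -/
noncomputable def reindex (f g : ℕ ↪ ℕ) (a : MInf R) : MInf R :=
  ⟨fun i j => by
      classical
      exact if h : (∃ i', f i' = i) ∧ (∃ j', g j' = j) then a.entry h.1.choose h.2.choose else 0,
    by
      have h : {p : ℕ × ℕ | a.1 p.1 p.2 ≠ 0}.Finite := a.2
      refine (h.image (fun p => (f p.1, g p.2))).subset ?_
      intro p hp
      simp only [ne_eq, dite_eq_right_iff, not_forall, Set.mem_ofPred_eq] at hp
      obtain ⟨h1, h2⟩ := hp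
      refine ⟨(h1.1.choose, h1.2.choose), h2, ?_⟩
      simp only [h1.1.choose_spec, h1.2.choose_spec]⟩

theorem reindex_apply (f g : ℕ ↪ ℕ) (a : MInf R) (i j : ℕ) :
    (reindex f g a).entry (f i) (g j) = a.entry i j := by
  classical
  have h : (∃ i', f i' = f i) ∧ (∃ j', g j' = g j) := ⟨⟨i, rfl⟩, ⟨j, rfl⟩⟩
  have : (reindex f g a).entry (f i) (g j) = a.entry h.1.choose h.2.choose := by
    show (dite _ _ _) = _
    rw [dif_pos h]
  rw [this, f.injective h.1.choose_spec, g.injective h.2.choose_spec]

theorem reindex_row_zero (f g : ℕ ↪ ℕ) (a : MInf R) {i : ℕ} (hi : ∀ i', f i' ≠ i) (j : ℕ) :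
    (reindex f g a).entry i j = 0 := by
  classical
  show (dite _ _ _) = _
  rw [dif_neg]
  rintro ⟨⟨i', h⟩, _⟩
  exact hi i' h

theorem reindex_col_zero (f g : ℕ ↪ ℕ) (a : MInf R) (i : ℕ) {j : ℕ} (hj : ∀ j', g j' ≠ j) :
    (reindex f g a).entry i j = 0 := by
  classical
  show (dite _ _ _) = _
  rw [dif_neg]
  rintro ⟨_, ⟨j', h⟩⟩
  exact hj j' h

/-- To prove equality with a reindexed matrix it suffices to look at the images and off them. -/
theorem eq_reindex {f g : ℕ ↪ ℕ} {a b : MInf R}
    (h1 : ∀ i j, b.entry (f i) (g j) = a.entry i j)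
    (h2 : ∀ i j, (∀ i', f i' ≠ i) → b.entry i j = 0)
    (h3 : ∀ i j, (∀ j', g j' ≠ j) → b.entry i j = 0) : b = reindex f g a := by
  ext i j
  by_cases hi : ∃ i', f i' = i
  · obtain ⟨i', rfl⟩ := hi
    by_cases hj : ∃ j', g j' = j
    · obtain ⟨j', rfl⟩ := hj
      rw [h1, reindex_apply]
    · push Not at hj
      rw [h3 _ _ hj, reindex_col_zero _ _ _ _ hj]
  · push Not at hi
    rw [h2 _ _ hi, reindex_row_zero _ _ _ hi]

theorem reindex_mul (f g k : ℕ ↪ ℕ) (a b : MInf R) :
    reindex f g a * reindex g k b = reindex f k (a * b) := by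
  apply eq_reindex
  · intro i j
    rw [entry_mul_def, entry_mul_def]
    have : ∑ᶠ l, (reindex f g a).entry (f i) l * (reindex g k b).entry l (k j) =
        ∑ᶠ l ∈ Set.range g, (reindex f g a).entry (f i) l * (reindex g k b).entry l (k j) := by
      rw [← finsum_mem_univ]
      apply finsum_mem_inter_support_eq
      ext l
      simp only [Set.mem_inter_iff, Set.mem_univ, true_and]
      constructor
      · intro hl
        refine ⟨?_, hl⟩
        by_contra hcon
        apply hl
        show (reindex f g a).entry (f i) l * (reindex g k b).entry l (k j) = 0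
        rw [reindex_col_zero _ _ _ _ (fun j' hj' => hcon ⟨j', hj'⟩), zero_mul]
      · intro hl
        exact hl.2
    rw [this, finsum_mem_range g.injective]
    exact finsum_congr fun l => by rw [reindex_apply, reindex_apply]
  · intro i j hi
    rw [entry_mul_def]
    simp [reindex_row_zero _ _ _ hi]
  · intro i j hj
    rw [entry_mul_def]
    simp [reindex_col_zero _ _ _ _ hj]

theorem reindex_add (f g : ℕ ↪ ℕ) (a b : MInf R) :
    reindex f g a + reindex f g b = reindex f g (a + b) := by
  apply eq_reindex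
  · intro i j
    simp [reindex_apply]
  · intro i j hi
    simp [reindex_row_zero _ _ _ hi]
  · intro i j hj
    simp [reindex_col_zero _ _ _ _ hj]

theorem reindex_zero (f g : ℕ ↪ ℕ) : reindex f g (0 : MInf R) = 0 := by
  symm
  apply eq_reindex <;> simp

theorem reindex_refl (a : MInf R) :
    reindex (Function.Embedding.refl ℕ) (Function.Embedding.refl ℕ) a = a := by
  symm
  apply eq_reindex
  · intro i j; rfl
  · intro i j h; exact absurd rfl (h i)
  · intro i j h; exact absurd rfl (h j)

theorem reindex_trans (f g f' g' : ℕ ↪ ℕ) (a : MInf R) :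
    reindex f' g' (reindex f g a) = reindex (f.trans f') (g.trans g') a := by
  apply eq_reindex
  · intro i j
    simp only [Function.Embedding.trans_apply]
    rw [reindex_apply, reindex_apply]
  · intro i j h
    by_cases hi : ∃ i', f' i' = i
    · obtain ⟨i', rfl⟩ := hi
      by_cases hj : ∃ j', g' j' = j
      · obtain ⟨j', rfl⟩ := hj
        rw [reindex_apply, reindex_row_zero]
        intro i'' h'
        exact h i'' (by simp [h'])
      · push Not at hj
        rw [reindex_col_zero _ _ _ _ hj]
    · push Not at hi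
      rw [reindex_row_zero _ _ _ hi]
  · intro i j h
    by_cases hi : ∃ i', f' i' = i
    · obtain ⟨i', rfl⟩ := hi
      by_cases hj : ∃ j', g' j' = j
      · obtain ⟨j', rfl⟩ := hj
        rw [reindex_apply, reindex_col_zero]
        intro i'' h'
        exact h i'' (by simp [h'])
      · push Not at hj
        rw [reindex_col_zero _ _ _ _ hj]
    · push Not at hi
      rw [reindex_row_zero _ _ _ hi]

/-- If the row-injections have disjoint images, the product vanishes. -/
theorem reindex_mul_reindex_zero (f g g' k : ℕ ↪ ℕ) (h : ∀ i j, g i ≠ g' j) (a b : MInf R) :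
    reindex f g a * reindex g' k b = 0 := by
  ext i j
  rw [entry_mul_def, entry_zero]
  rw [finsum_eq_zero_of_forall_eq_zero]
  intro l
  by_cases hl : ∃ l', g l' = l
  · obtain ⟨l', rfl⟩ := hl
    rw [reindex_row_zero _ _ _ (fun j' => (h l' j').symm), mul_zero]
  · push Not at hl
    rw [reindex_col_zero _ _ _ _ hl, zero_mul]

/-- Entrywise application of a ring homomorphism. -/
def mapFun {S : Type v} [NonUnitalRing S] (φ : R →ₙ+* S) (a : MInf R) : MInf S :=
  ⟨fun i j => φ (a.entry i j), by
    have h : {p : ℕ × ℕ | a.1 p.1 p.2 ≠ 0}.Finite := a.2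
    refine h.subset ?_
    intro p hp hz
    apply hp
    show φ (a.1 p.1 p.2) = 0
    rw [hz, map_zero]⟩

@[simp] theorem entry_mapFun {S : Type v} [NonUnitalRing S] (φ : R →ₙ+* S) (a : MInf R)
    (i j : ℕ) : (mapFun φ a).entry i j = φ (a.entry i j) := rfl

/-- The ring homomorphism `M_∞(R) → M_∞(S)` induced by a ring homomorphism `R → S`. -/
noncomputable def map {S : Type v} [NonUnitalRing S] (φ : R →ₙ+* S) : MInf R →ₙ+* MInf S where
  toFun := mapFun φ
  map_zero' := by
    ext i j
    simp
  map_add' a b := by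
    ext i j
    simp
  map_mul' a b := by
    ext i j
    obtain ⟨N, hN⟩ := a.exists_bdd
    have hN' : (mapFun φ a).Bdd N := by
      intro i j hij
      rw [entry_mapFun, hN i j hij, map_zero]
    rw [entry_mapFun, entry_mul_left hN, map_sum, entry_mul_left hN']
    exact Finset.sum_congr rfl fun k _ => by simp

@[simp] theorem entry_map {S : Type v} [NonUnitalRing S] (φ : R →ₙ+* S) (a : MInf R) (i j : ℕ) :
    (map φ a).entry i j = φ (a.entry i j) := rfl

theorem map_reindex {S : Type v} [NonUnitalRing S] (φ : R →ₙ+* S) (f g : ℕ ↪ ℕ) (a : MInf R) :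
    map φ (reindex f g a) = reindex f g (map φ a) := by
  apply eq_reindex
  · intro i j
    rw [entry_map, reindex_apply, entry_map]
  · intro i j h
    rw [entry_map, reindex_row_zero _ _ _ h, map_zero]
  · intro i j h
    rw [entry_map, reindex_col_zero _ _ _ _ h, map_zero]

end MInf

/-- The idempotents of `M_∞(R)`. -/
def Idem (R : Type u) [NonUnitalRing R] : Type u := {e : MInf R // e * e = e}

/-- Murray-von Neumann equivalence of idempotents of `M_∞(R)`: `e = x y` and `f = y x` for some
`x, y ∈ M_∞(R)`. -/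
def MvN {R : Type u} [NonUnitalRing R] (e f : Idem R) : Prop :=
  ∃ x y : MInf R, e.1 = x * y ∧ f.1 = y * x

namespace MvN

variable {R : Type u} [NonUnitalRing R]

theorem refl (e : Idem R) : MvN e e := ⟨e.1, e.1, e.2.symm, e.2.symm⟩

theorem symm {e f : Idem R} (h : MvN e f) : MvN f e := by
  obtain ⟨x, y, h1, h2⟩ := h
  exact ⟨y, x, h2, h1⟩

theorem trans {e f g : Idem R} (h : MvN e f) (h' : MvN f g) : MvN e g := by
  obtain ⟨x, y, h1, h2⟩ := h
  obtain ⟨z, w, h3, h4⟩ := h'
  refine ⟨x * z, w * y, ?_, ?_⟩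
  · calc e.1 = e.1 * e.1 := e.2.symm
      _ = (x * y) * (x * y) := by rw [h1]
      _ = x * (y * x) * y := by simp only [mul_assoc]
      _ = x * (z * w) * y := by rw [← h2, h3]
      _ = x * z * (w * y) := by simp only [mul_assoc]
  · calc g.1 = g.1 * g.1 := g.2.symm
      _ = (w * z) * (w * z) := by rw [h4]
      _ = w * (z * w) * z := by simp only [mul_assoc]
      _ = w * (y * x) * z := by rw [← h3, h2]
      _ = w * y * (x * z) := by simp only [mul_assoc]

end MvN

/-- Murray-von Neumann equivalence as a setoid. -/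
def mvnSetoid (R : Type u) [NonUnitalRing R] : Setoid (Idem R) where
  r := MvN
  iseqv := ⟨MvN.refl, MvN.symm, MvN.trans⟩

/-- `V(R)`: the set of Murray-von Neumann equivalence classes of idempotents of `M_∞(R)`. -/
def V (R : Type u) [NonUnitalRing R] : Type u := Quotient (mvnSetoid R)

namespace V

variable {R : Type u} [NonUnitalRing R]

/-- The class `[e]` of an idempotent `e` of `M_∞(R)`. -/
def mk (e : Idem R) : V R := Quotient.mk (mvnSetoid R) e

theorem mk_eq {e f : Idem R} : mk e = mk f ↔ MvN e f := Quotient.eq (r := mvnSetoid R)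

/-- The injection `n ↦ 2 n`. -/
def even : ℕ ↪ ℕ := ⟨fun n => 2 * n, fun a b h => by simpa using h⟩
/-- The injection `n ↦ 2 n + 1`. -/
def odd : ℕ ↪ ℕ := ⟨fun n => 2 * n + 1, fun a b h => by simpa using h⟩

theorem even_ne_odd (i j : ℕ) : even i ≠ odd j := by
  show 2 * i ≠ 2 * j + 1
  omega

theorem odd_ne_even (i j : ℕ) : odd i ≠ even j := by
  show 2 * i + 1 ≠ 2 * j
  omega

open MInf in
/-- The block sum of two idempotents: the first placed in the even rows and columns, the second in
the odd rows and columns. -/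
noncomputable def blockSum (e f : Idem R) : Idem R :=
  ⟨reindex even even e.1 + reindex odd odd f.1, by
    rw [add_mul, mul_add, mul_add, reindex_mul, reindex_mul, e.2, f.2,
      reindex_mul_reindex_zero _ _ _ _ even_ne_odd, reindex_mul_reindex_zero _ _ _ _ odd_ne_even]
    simp⟩

open MInf in
theorem mvn_reindex (f : ℕ ↪ ℕ) (e e' : Idem R) (h : e'.1 = reindex f f e.1) : MvN e e' := by
  refine ⟨reindex (Function.Embedding.refl ℕ) f e.1, reindex f (Function.Embedding.refl ℕ) e.1,
    ?_, ?_⟩
  · rw [reindex_mul, e.2, reindex_refl]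
  · rw [reindex_mul, e.2, h]

open MInf in
theorem blockSum_congr {e e' f f' : Idem R} (he : MvN e e') (hf : MvN f f') :
    MvN (blockSum e f) (blockSum e' f') := by
  obtain ⟨x, y, h1, h2⟩ := he
  obtain ⟨z, w, h3, h4⟩ := hf
  refine ⟨reindex even even x + reindex odd odd z, reindex even even y + reindex odd odd w, ?_, ?_⟩
  · rw [add_mul, mul_add, mul_add, reindex_mul, reindex_mul,
      reindex_mul_reindex_zero _ _ _ _ even_ne_odd, reindex_mul_reindex_zero _ _ _ _ odd_ne_even,
      ← h1, ← h3]
    simp [blockSum]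
  · rw [add_mul, mul_add, mul_add, reindex_mul, reindex_mul,
      reindex_mul_reindex_zero _ _ _ _ even_ne_odd, reindex_mul_reindex_zero _ _ _ _ odd_ne_even,
      ← h2, ← h4]
    simp [blockSum]

/-- Addition on `V(R)`: the class of the block sum. By `V.mk_add_mk_of_orthogonal` below,
`[e] + [f] = [e' + f']` whenever `e ~ e'`, `f ~ f'` and `e' f' = f' e' = 0`. -/
noncomputable instance : Add (V R) where
  add := Quotient.map₂ blockSum fun _ _ h _ _ h' => blockSum_congr h h'

theorem mk_add_mk (e f : Idem R) : mk e + mk f = mk (blockSum e f) := rfl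

/-- The sum of two orthogonal idempotents. -/
noncomputable def orthoSum (e f : Idem R) (h1 : e.1 * f.1 = 0) (h2 : f.1 * e.1 = 0) : Idem R :=
  ⟨e.1 + f.1, by rw [add_mul, mul_add, mul_add, e.2, f.2, h1, h2]; simp⟩

open MInf in
theorem mk_add_mk_of_orthogonal' (e f : Idem R) (h1 : e.1 * f.1 = 0) (h2 : f.1 * e.1 = 0) :
    mk e + mk f = mk (orthoSum e f h1 h2) := by
  rw [mk_add_mk, mk_eq]
  apply MvN.symm
  refine ⟨reindex (Function.Embedding.refl ℕ) even e.1 + reindex (Function.Embedding.refl ℕ) odd f.1,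
    reindex even (Function.Embedding.refl ℕ) e.1 + reindex odd (Function.Embedding.refl ℕ) f.1,
    ?_, ?_⟩
  · rw [add_mul, mul_add, mul_add, reindex_mul, reindex_mul,
      reindex_mul_reindex_zero _ _ _ _ even_ne_odd, reindex_mul_reindex_zero _ _ _ _ odd_ne_even,
      e.2, f.2, reindex_refl, reindex_refl]
    simp [orthoSum]
  · rw [add_mul, mul_add, mul_add, reindex_mul, reindex_mul, reindex_mul, reindex_mul,
      e.2, f.2, h1, h2, reindex_zero, reindex_zero]
    simp [blockSum]

/-- The defining property of addition in `V(R)`: `[e] + [f] = [e' + f']` if `e ~ e'`, `f ~ f'` and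
`e' f' = f' e' = 0`. -/
theorem mk_add_mk_of_orthogonal (e f e' f' : Idem R) (he : MvN e e') (hf : MvN f f')
    (h1 : e'.1 * f'.1 = 0) (h2 : f'.1 * e'.1 = 0) :
    mk e + mk f = mk (orthoSum e' f' h1 h2) := by
  rw [mk_eq.2 he, mk_eq.2 hf, mk_add_mk_of_orthogonal']

/-- The zero idempotent. -/
noncomputable def zeroIdem : Idem R := ⟨0, mul_zero _⟩

noncomputable instance : Zero (V R) := ⟨mk zeroIdem⟩

theorem zero_def : (0 : V R) = mk zeroIdem := rfl

theorem ind {p : V R → Prop} (h : ∀ e, p (mk e)) (x : V R) : p x := Quotient.ind h x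

theorem add_comm' (x y : V R) : x + y = y + x := by
  induction x using ind with | _ e
  induction y using ind with | _ f
  have h : mk e + mk f = mk (orthoSum
      ⟨(MInf.reindex even even e.1), by rw [MInf.reindex_mul, e.2]⟩
      ⟨(MInf.reindex odd odd f.1), by rw [MInf.reindex_mul, f.2]⟩
      (MInf.reindex_mul_reindex_zero _ _ _ _ even_ne_odd _ _)
      (MInf.reindex_mul_reindex_zero _ _ _ _ odd_ne_even _ _)) :=
    mk_add_mk_of_orthogonal _ _ _ _ (mvn_reindex even _ _ rfl) (mvn_reindex odd _ _ rfl) _ _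
  have h' : mk f + mk e = mk (orthoSum
      ⟨(MInf.reindex odd odd f.1), by rw [MInf.reindex_mul, f.2]⟩
      ⟨(MInf.reindex even even e.1), by rw [MInf.reindex_mul, e.2]⟩
      (MInf.reindex_mul_reindex_zero _ _ _ _ odd_ne_even _ _)
      (MInf.reindex_mul_reindex_zero _ _ _ _ even_ne_odd _ _)) :=
    mk_add_mk_of_orthogonal _ _ _ _ (mvn_reindex odd _ _ rfl) (mvn_reindex even _ _ rfl) _ _
  rw [h, h']
  congr 1
  apply Subtype.ext
  exact add_comm _ _

theorem zero_add' (x : V R) : 0 + x = x := by
  induction x using ind with | _ e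
  rw [zero_def, mk_add_mk_of_orthogonal' zeroIdem e (zero_mul _) (mul_zero _)]
  congr 1
  apply Subtype.ext
  exact zero_add _

/-- The injection `n ↦ 3 n + r`. -/
def three (r : ℕ) : ℕ ↪ ℕ := ⟨fun n => 3 * n + r, fun a b h => by simpa using h⟩

theorem three_ne {r s : ℕ} (hr : r < 3) (hs : s < 3) (h : r ≠ s) (i j : ℕ) :
    three r i ≠ three s j := by
  show 3 * i + r ≠ 3 * j + s
  omega

theorem add_assoc' (x y z : V R) : x + y + z = x + (y + z) := by
  induction x using ind with | _ e
  induction y using ind with | _ f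
  induction z using ind with | _ g
  let e' : Idem R := ⟨(MInf.reindex (three 0) (three 0) e.1), by rw [MInf.reindex_mul, e.2]⟩
  let f' : Idem R := ⟨(MInf.reindex (three 1) (three 1) f.1), by rw [MInf.reindex_mul, f.2]⟩
  let g' : Idem R := ⟨(MInf.reindex (three 2) (three 2) g.1), by rw [MInf.reindex_mul, g.2]⟩
  have he : mk e = mk e' := mk_eq.2 (mvn_reindex (three 0) _ _ rfl)
  have hf : mk f = mk f' := mk_eq.2 (mvn_reindex (three 1) _ _ rfl)
  have hg : mk g = mk g' := mk_eq.2 (mvn_reindex (three 2) _ _ rfl)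
  have z01 : e'.1 * f'.1 = 0 :=
    MInf.reindex_mul_reindex_zero _ _ _ _ (three_ne (by omega) (by omega) (by omega)) _ _
  have z10 : f'.1 * e'.1 = 0 :=
    MInf.reindex_mul_reindex_zero _ _ _ _ (three_ne (by omega) (by omega) (by omega)) _ _
  have z02 : e'.1 * g'.1 = 0 :=
    MInf.reindex_mul_reindex_zero _ _ _ _ (three_ne (by omega) (by omega) (by omega)) _ _
  have z20 : g'.1 * e'.1 = 0 :=
    MInf.reindex_mul_reindex_zero _ _ _ _ (three_ne (by omega) (by omega) (by omega)) _ _
  have z12 : f'.1 * g'.1 = 0 :=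
    MInf.reindex_mul_reindex_zero _ _ _ _ (three_ne (by omega) (by omega) (by omega)) _ _
  have z21 : g'.1 * f'.1 = 0 :=
    MInf.reindex_mul_reindex_zero _ _ _ _ (three_ne (by omega) (by omega) (by omega)) _ _
  rw [he, hf, hg, mk_add_mk_of_orthogonal' e' f' z01 z10, mk_add_mk_of_orthogonal' f' g' z12 z21]
  rw [mk_add_mk_of_orthogonal' (orthoSum e' f' z01 z10) g'
    (by simp [orthoSum, add_mul, z02, z12]) (by simp [orthoSum, mul_add, z20, z21])]
  rw [mk_add_mk_of_orthogonal' e' (orthoSum f' g' z12 z21)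
    (by simp [orthoSum, mul_add, z01, z02]) (by simp [orthoSum, add_mul, z10, z20])]
  congr 1
  apply Subtype.ext
  exact add_assoc _ _ _

/-- `V(R)` is a commutative monoid. -/
noncomputable instance : AddCommMonoid (V R) where
  add_assoc := add_assoc'
  zero_add := zero_add'
  add_zero x := by rw [add_comm', zero_add']
  add_comm := add_comm'
  nsmul := nsmulRec

/-- The image of an idempotent under a ring homomorphism. -/
noncomputable def mapIdem {S : Type v} [NonUnitalRing S] (φ : R →ₙ+* S) (e : Idem R) : Idem S :=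
  ⟨MInf.map φ e.1, by rw [← map_mul, e.2]⟩

/-- The monoid homomorphism `V(φ) : V(R) → V(S)`, `[e] ↦ [φ(e)]`. -/
noncomputable def map {S : Type v} [NonUnitalRing S] (φ : R →ₙ+* S) : V R →+ V S where
  toFun := Quotient.map (mapIdem φ) (by
    rintro e f ⟨x, y, h1, h2⟩
    refine ⟨MInf.map φ x, MInf.map φ y, ?_, ?_⟩
    · show MInf.map φ e.1 = _
      rw [h1, map_mul]
    · show MInf.map φ f.1 = _
      rw [h2, map_mul])
  map_zero' := by
    show mk _ = mk _
    congr 1
    exact Subtype.ext (map_zero (MInf.map φ))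
  map_add' x y := by
    induction x using ind with | _ e
    induction y using ind with | _ f
    show mk (mapIdem φ (blockSum e f)) = mk (blockSum (mapIdem φ e) (mapIdem φ f))
    congr 1
    apply Subtype.ext
    show MInf.map φ (_ + _) = _ + _
    rw [map_add, MInf.map_reindex, MInf.map_reindex]
    rfl

@[simp] theorem map_mk {S : Type v} [NonUnitalRing S] (φ : R →ₙ+* S) (e : Idem R) :
    map φ (mk e) = mk (mapIdem φ e) := rfl

theorem map_id' : map (NonUnitalRingHom.id R) = AddMonoidHom.id (V R) := by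
  apply AddMonoidHom.ext
  intro x
  induction x using ind with | _ e
  rfl

theorem map_comp' {S : Type v} [NonUnitalRing S] {T : Type w} [NonUnitalRing T]
    (φ : R →ₙ+* S) (ψ : S →ₙ+* T) : map (ψ.comp φ) = (map ψ).comp (map φ) := by
  apply AddMonoidHom.ext
  intro x
  induction x using ind with | _ e
  rfl

end V

end Pool.Agent.H10
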