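import Mathlib
import Pool.Agent.H10.MInf

/-!
# The categories `Exch` and `𝒮`, and the functor `V`
-/

namespace Pool.Agent.H10

open CategoryTheory

/-- An exchange ring, not necessarily unital (Ara's definition): for every `x` there are an
idempotent `e` and elements `r, s` with `e = x r` and `e = x + s - x s`. -/
structure ExchRng : Type 1 where
  /-- The underlying type. -/
  carrier : Type
  [ring : NonUnitalRing carrier]
  exchange : ∀ x : carrier, ∃ e r s : carrier, e * e = e ∧ e = x * r ∧ e = x + s - x * s

attribute [instance] ExchRng.ring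

/-- The category of exchange rings and (not necessarily unit preserving) ring homomorphisms. -/
instance : Category ExchRng where
  Hom R S := R.carrier →ₙ+* S.carrier
  id R := NonUnitalRingHom.id R.carrier
  comp f g := NonUnitalRingHom.comp g f

/-- The functor `V` from exchange rings to commutative monoids. -/
noncomputable def VFunctor : ExchRng ⥤ AddCommMonCat.{0} where
  obj R := AddCommMonCat.of (V R.carrier)
  map {R S} f := AddCommMonCat.ofHom (V.map (R := R.carrier) (S := S.carrier) f)
  map_id R := by
    apply AddCommMonCat.hom_ext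
    exact V.map_id'
  map_comp {R S T} f g := by
    apply AddCommMonCat.hom_ext
    exact V.map_comp' (R := R.carrier) (S := S.carrier) (T := T.carrier) f g

/-- A simplicial monoid (a monoid isomorphic to `(ℤ⁺)ⁿ = ℕⁿ` for some `n`) together with a
distinguished order-unit. -/
structure SimpMon : Type 1 where
  /-- The underlying type. -/
  carrier : Type
  [monoid : AddCommMonoid carrier]
  simplicial : ∃ n : ℕ, Nonempty (carrier ≃+ (Fin n → ℕ))
  /-- The distinguished order-unit. -/
  unit : carrier
  isOrderUnit : ∀ x : carrier, ∃ (y : carrier) (n : ℕ), x + y = n • unit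

attribute [instance] SimpMon.monoid

/-- A normalized embedding of simplicial monoids with order-unit: an injective monoid homomorphism
sending the distinguished order-unit to the distinguished order-unit. -/
@[ext] structure SimpMon.Hom (M N : SimpMon) where
  /-- The underlying monoid homomorphism. -/
  toHom : M.carrier →+ N.carrier
  injective : Function.Injective toHom
  map_unit : toHom M.unit = N.unit

/-- The category `𝒮` of simplicial monoids with order-unit and normalized embeddings. -/
instance : Category SimpMon where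
  Hom M N := SimpMon.Hom M N
  id M := ⟨AddMonoidHom.id M.carrier, Function.injective_id, rfl⟩
  comp {M N P} f g := ⟨g.toHom.comp f.toHom, g.injective.comp f.injective, by
    rw [AddMonoidHom.comp_apply, f.map_unit, g.map_unit]⟩

/-- The inclusion functor from `𝒮` to commutative monoids. -/
def incl : SimpMon ⥤ AddCommMonCat.{0} where
  obj M := AddCommMonCat.of M.carrier
  map {M N} f := AddCommMonCat.ofHom f.toHom

/-- For a unital ring, the exchange property in the usual form implies the one of `ExchRng`. -/
theorem exchange_of_unital {R : Type} [Ring R]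
    (h : ∀ x : R, ∃ e : R, e * e = e ∧ (∃ r, e = x * r) ∧ (∃ t, 1 - e = (1 - x) * t)) (x : R) :
    ∃ e r s : R, e * e = e ∧ e = x * r ∧ e = x + s - x * s := by
  obtain ⟨e, he, ⟨r, hr⟩, ⟨t, ht⟩⟩ := h x
  refine ⟨e, r, 1 - t, he, hr, ?_⟩
  have : e = 1 - (1 - x) * t := by rw [← ht]; abel
  rw [this]; noncomm_ring

/-- For a unital ring, the exchange property of `ExchRng` implies the one in the usual form. -/
theorem unital_of_exchange {R : Type} [Ring R]
    (h : ∀ x : R, ∃ e r s : R, e * e = e ∧ e = x * r ∧ e = x + s - x * s) (x : R) :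
    ∃ e : R, e * e = e ∧ (∃ r, e = x * r) ∧ (∃ t, 1 - e = (1 - x) * t) := by
  obtain ⟨e, r, s, he, hr, hs⟩ := h x
  refine ⟨e, he, ⟨r, hr⟩, ⟨1 - s, ?_⟩⟩
  rw [hs]; noncomm_ring

/-- Every clean unital ring is an exchange ring. -/
theorem exchange_of_clean {R : Type} [Ring R]
    (h : ∀ x : R, ∃ f : R, f * f = f ∧ IsUnit (x - f)) (x : R) :
    ∃ e r s : R, e * e = e ∧ e = x * r ∧ e = x + s - x * s := by
  obtain ⟨f, hf, ⟨v, hv⟩⟩ := h x
  have hx : x = f + v := by rw [hv]; abel
  have h1 : (v : R) * ↑v⁻¹ = 1 := Units.mul_inv v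
  have h2 : (↑v⁻¹ : R) * v = 1 := Units.inv_mul v
  have key : (x - v * (1 - f) * ↑v⁻¹) * v = x * x - x := by
    rw [sub_mul, mul_assoc, mul_assoc, h2, hx]
    have : (f + (v : R)) * (f + v) - (f + v) = f * f + f * v + v * f + v * v - f - v := by
      noncomm_ring
    rw [this, hf]
    noncomm_ring
  have key2 : v * (1 - f) * (↑v⁻¹ : R) = x - (x * x - x) * ↑v⁻¹ := by
    rw [← key, mul_assoc (x - v * (1 - f) * ↑v⁻¹) (v : R) _, h1]; noncomm_ring
  refine ⟨v * (1 - f) * ↑v⁻¹, 1 - (x - 1) * ↑v⁻¹, x * ↑v⁻¹, ?_, ?_, ?_⟩
  · calc v * (1 - f) * ↑v⁻¹ * (v * (1 - f) * ↑v⁻¹)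
        = v * (1 - f) * ((↑v⁻¹ : R) * v) * (1 - f) * ↑v⁻¹ := by noncomm_ring
      _ = v * ((1 - f) * (1 - f)) * ↑v⁻¹ := by rw [h2]; noncomm_ring
      _ = v * (1 - f) * ↑v⁻¹ := by
        have : (1 - f) * (1 - f) = 1 - f := by
          have : (1 - f) * (1 - f) = 1 - f - f + f * f := by noncomm_ring
          rw [this, hf]; abel
        rw [this]
  · rw [key2]; noncomm_ring
  · rw [key2]; noncomm_ring

end Pool.Agent.H10
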