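import Mathlib
import Pool.Agent.H10.Cats

/-!
# Block-diagonal embeddings attached to normalized embeddings of simplicial monoids
-/

namespace Pool.Agent.H10

open CategoryTheory Matrix

section Realization

variable {m : ℕ} {u : Fin m → ℕ}

/-- The product of matrix rings `∏ M_{u i}(R)`. -/
abbrev Blk (R : Type*) {m : ℕ} (u : Fin m → ℕ) := ∀ i : Fin m, Matrix (Fin (u i)) (Fin (u i)) R

/-- Entrywise application of a ring homomorphism. -/
def mapBlk {R S : Type*} [CommRing R] [CommRing S] (f : R →+* S) {m : ℕ} (u : Fin m → ℕ) :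
    Blk R u →+* Blk S u :=
  RingHom.pi fun i => f.mapMatrix.comp (Pi.evalRingHom _ i)

@[simp] theorem mapBlk_apply {R S : Type*} [CommRing R] [CommRing S] (f : R →+* S)
    (a : Blk R u) (i : Fin m) (p q : Fin (u i)) : mapBlk f u a i p q = f (a i p q) := rfl

theorem mapBlk_apply' {R S : Type*} [CommRing R] [CommRing S] (f : R →+* S)
    (a : Blk R u) (i : Fin m) : mapBlk f u a i = (a i).map f := rfl

theorem mapBlk_comp {R S T : Type*} [CommRing R] [CommRing S] [CommRing T] (f : R →+* S)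
    (g : S →+* T) (a : Blk R u) : mapBlk g u (mapBlk f u a) = mapBlk (g.comp f) u a := rfl

/-- The block-diagonal homomorphism `∏ M_{u i}(R) → M_N(R)` in which the `i`-th factor occurs
`T i` times, the places being prescribed by `β`. -/
def Phi (R : Type*) [CommRing R] {T : Fin m → Type} [∀ i, DecidableEq (T i)] [∀ i, Fintype (T i)]
    {N : ℕ} (β : Fin N ≃ Σ k : (Σ i, T i), Fin (u k.1)) :
    Blk R u →+* Matrix (Fin N) (Fin N) R :=
  ((Matrix.reindexRingEquiv R β.symm).toRingHom.comp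
    (Matrix.blockDiagonal'RingHom (fun k : (Σ i, T i) => Fin (u k.1)) R)).comp
    (RingHom.pi fun k => Pi.evalRingHom _ k.1)

theorem Phi_apply {R : Type*} [CommRing R] {T : Fin m → Type} [∀ i, DecidableEq (T i)]
    [∀ i, Fintype (T i)] {N : ℕ} (β : Fin N ≃ Σ k : (Σ i, T i), Fin (u k.1)) (a : Blk R u) :
    Phi R β a = (Matrix.blockDiagonal' (fun k : (Σ i, T i) => a k.1)).submatrix β β := rfl

theorem Phi_map {R S : Type*} [CommRing R] [CommRing S] (f : R →+* S)
    {T : Fin m → Type} [∀ i, DecidableEq (T i)]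
    [∀ i, Fintype (T i)] {N : ℕ} (β : Fin N ≃ Σ k : (Σ i, T i), Fin (u k.1)) (a : Blk R u) :
    (Phi R β a).map f = Phi S β (mapBlk f u a) := by
  rw [Phi_apply, Phi_apply]
  rw [← Matrix.submatrix_map]
  rw [Matrix.blockDiagonal'_map _ _ (map_zero f)]
  rfl

theorem trace_Phi {R : Type*} [CommRing R] {T : Fin m → Type} [∀ i, DecidableEq (T i)]
    [∀ i, Fintype (T i)] {N : ℕ} (β : Fin N ≃ Σ k : (Σ i, T i), Fin (u k.1)) (a : Blk R u) :
    (Phi R β a).trace = ∑ i, (Fintype.card (T i) : R) * (a i).trace := by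
  rw [Phi_apply]
  have h1 : ((Matrix.blockDiagonal' (fun k : (Σ i, T i) => a k.1)).submatrix β β).trace =
      (Matrix.blockDiagonal' (fun k : (Σ i, T i) => a k.1)).trace := by
    unfold Matrix.trace
    exact Equiv.sum_comp β (fun x => (Matrix.blockDiagonal' (fun k : (Σ i, T i) => a k.1)).diag x)
  rw [h1, Matrix.trace_blockDiagonal', Fintype.sum_sigma]
  refine Finset.sum_congr rfl fun i _ => ?_
  show ∑ _x : T i, (a i).trace = _
  rw [Finset.sum_const, Finset.card_univ, nsmul_eq_mul]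

/-- Two block-diagonal homomorphisms with the same multiplicities differ by a permutation. -/
theorem Phi_conj {T T' : Fin m → Type} [∀ i, DecidableEq (T i)] [∀ i, Fintype (T i)]
    [∀ i, DecidableEq (T' i)] [∀ i, Fintype (T' i)] {N : ℕ}
    (β : Fin N ≃ Σ k : (Σ i, T i), Fin (u k.1)) (β' : Fin N ≃ Σ k : (Σ i, T' i), Fin (u k.1))
    (e : ∀ i, T i ≃ T' i) :
    ∃ σ : Equiv.Perm (Fin N), ∀ (R : Type) [CommRing R] (a : Blk R u),
      Phi R β a = (Phi R β' a).submatrix σ σ := by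
  let E : (Σ k : (Σ i, T i), Fin (u k.1)) ≃ (Σ k : (Σ i, T' i), Fin (u k.1)) :=
    { toFun := fun x => ⟨⟨x.1.1, e _ x.1.2⟩, x.2⟩
      invFun := fun x => ⟨⟨x.1.1, (e _).symm x.1.2⟩, x.2⟩
      left_inv := by rintro ⟨⟨i, r⟩, p⟩; simp
      right_inv := by rintro ⟨⟨i, r⟩, p⟩; simp }
  refine ⟨β.trans (E.trans β'.symm), fun R _ a => ?_⟩
  rw [Phi_apply, Phi_apply, Matrix.submatrix_submatrix]
  ext P Q
  simp only [Matrix.submatrix_apply, Function.comp_apply, Equiv.trans_apply,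
    Equiv.apply_symm_apply]
  generalize β P = x
  generalize β Q = y
  obtain ⟨⟨i, r⟩, p⟩ := x
  obtain ⟨⟨i', r'⟩, q⟩ := y
  by_cases h : (⟨i, r⟩ : Σ i, T i) = ⟨i', r'⟩
  · cases h
    show Matrix.blockDiagonal' _ _ _ = Matrix.blockDiagonal' _ _ _
    rw [Matrix.blockDiagonal'_apply_eq]
    exact (Matrix.blockDiagonal'_apply_eq (fun k : (Σ i, T' i) => a k.1) ⟨i, e i r⟩ p q).symm
  · rw [Matrix.blockDiagonal'_apply_ne _ _ _ h]
    symm
    apply Matrix.blockDiagonal'_apply_ne (fun k : (Σ i, T' i) => a k.1)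
    intro h'
    exact h ((Equiv.sigmaCongrRight e).injective h')

end Realization

/-- Objects of the skeleton of `𝒮`: a dimension `n` and a positive vector `u ∈ ℕⁿ`. -/
structure Sk : Type where
  /-- the rank -/
  n : ℕ
  /-- the order-unit -/
  u : Fin n → ℕ
  pos : ∀ i, 0 < u i

namespace Sk

/-- The simplicial monoid with order-unit attached to an object of the skeleton. -/
def ob (X : Sk) : SimpMon where
  carrier := Fin X.n → ℕ
  simplicial := ⟨X.n, ⟨AddEquiv.refl _⟩⟩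
  unit := X.u
  isOrderUnit := fun x => by
    refine ⟨fun i => (∑ j, x j) * X.u i - x i, ∑ j, x j, ?_⟩
    funext i
    have h1 : x i ≤ ∑ j, x j := Finset.single_le_sum (fun _ _ => Nat.zero_le _) (Finset.mem_univ i)
    have h2 : ∑ j, x j ≤ (∑ j, x j) * X.u i := Nat.le_mul_of_pos_right _ (X.pos i)
    simp only [Pi.add_apply, Pi.smul_apply, smul_eq_mul]
    omega

variable {X Y Z : Sk}

/-- The underlying map of a morphism of `𝒮` between objects of the skeleton. -/
def fn (h : X.ob ⟶ Y.ob) : (Fin X.n → ℕ) →+ (Fin Y.n → ℕ) := SimpMon.Hom.toHom h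

/-- The matrix of a morphism. -/
def mat (h : X.ob ⟶ Y.ob) (j : Fin Y.n) (i : Fin X.n) : ℕ := fn h (Pi.single i 1) j

theorem fn_apply (h : X.ob ⟶ Y.ob) (x : Fin X.n → ℕ) (j : Fin Y.n) :
    fn h x j = ∑ i, mat h j i * x i := by
  have hx : x = ∑ i, x i • (Pi.single i 1 : Fin X.n → ℕ) := by
    funext k
    simp [Finset.sum_apply, Pi.single_apply]
  conv_lhs => rw [hx]
  rw [map_sum, Finset.sum_apply]
  refine Finset.sum_congr rfl fun i _ => ?_
  rw [map_nsmul, Pi.smul_apply, smul_eq_mul, mul_comm]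
  rfl

theorem mat_unit (h : X.ob ⟶ Y.ob) (j : Fin Y.n) : ∑ i, mat h j i * X.u i = Y.u j := by
  rw [← fn_apply]
  exact congrFun (SimpMon.Hom.map_unit h) j

theorem mat_comp (g : X.ob ⟶ Y.ob) (h : Y.ob ⟶ Z.ob) (j : Fin Z.n) (i : Fin X.n) :
    mat (g ≫ h) j i = ∑ l, mat h j l * mat g l i := by
  show fn h (fn g (Pi.single i 1)) j = _
  rw [fn_apply]
  rfl

theorem mat_id (j i : Fin X.n) : mat (𝟙 X.ob) j i = if j = i then 1 else 0 := by
  show (Pi.single i 1 : Fin X.n → ℕ) j = _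
  rw [Pi.single_apply]

theorem beta_card (h : X.ob ⟶ Y.ob) (j : Fin Y.n) :
    Fintype.card (Fin (Y.u j)) =
      Fintype.card (Σ k : (Σ i, Fin (mat h j i)), Fin (X.u k.1)) := by
  rw [Fintype.card_sigma, Fintype.sum_sigma, Fintype.card_fin, ← mat_unit h j]
  refine Finset.sum_congr rfl fun i _ => ?_
  simp

/-- The places of the blocks in the block-diagonal embedding attached to `h`. -/
noncomputable def beta (h : X.ob ⟶ Y.ob) (j : Fin Y.n) :
    Fin (Y.u j) ≃ Σ k : (Σ i, Fin (mat h j i)), Fin (X.u k.1) :=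
  Fintype.equivOfCardEq (beta_card h j)

/-- The block-diagonal embedding `∏ M_{u i}(R) → ∏ M_{v j}(R)` attached to a morphism. -/
noncomputable def S (R : Type*) [CommRing R] (h : X.ob ⟶ Y.ob) : Blk R X.u →+* Blk R Y.u :=
  RingHom.pi fun j => Phi R (beta h j)

theorem S_apply {R : Type*} [CommRing R] (h : X.ob ⟶ Y.ob) (a : Blk R X.u) (j : Fin Y.n) :
    S R h a j = Phi R (beta h j) a := rfl

theorem mapBlk_S {R R' : Type*} [CommRing R] [CommRing R'] (f : R →+* R') (h : X.ob ⟶ Y.ob)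
    (a : Blk R X.u) : mapBlk f Y.u (S R h a) = S R' h (mapBlk f X.u a) := by
  funext j
  rw [mapBlk_apply', S_apply, S_apply, Phi_map]

theorem trace_S {R : Type*} [CommRing R] (h : X.ob ⟶ Y.ob) (a : Blk R X.u) (j : Fin Y.n) :
    (S R h a j).trace = ∑ i, (mat h j i : R) * (a i).trace := by
  rw [S_apply, trace_Phi]
  simp

/-- The block-diagonal embedding attached to an identity is a permutation of rows and columns. -/
theorem S_id (X : Sk) : ∃ σ : ∀ j, Equiv.Perm (Fin (X.u j)), ∀ (R : Type) [CommRing R]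
    (a : Blk R X.u) (j), S R (𝟙 X.ob) a j = (a j).submatrix (σ j) (σ j) := by
  have key : ∀ j : Fin X.n, ∃ σ : Equiv.Perm (Fin (X.u j)), ∀ (R : Type) [CommRing R]
      (a : Blk R X.u), S R (𝟙 X.ob) a j = (a j).submatrix σ σ := by
    intro j
    let T : Fin X.n → Type := fun i => PLift (j = i)
    let β : Fin (X.u j) ≃ Σ k : (Σ i, T i), Fin (X.u k.1) :=
      { toFun := fun p => ⟨⟨j, ⟨rfl⟩⟩, p⟩
        invFun := fun x => Fin.cast (by rw [x.1.2.down]) x.2
        left_inv := fun p => rfl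
        right_inv := by
          rintro ⟨⟨i, ⟨hi⟩⟩, p⟩
          subst hi
          rfl }
    have e : ∀ i, Fin (mat (𝟙 X.ob) j i) ≃ T i := by
      intro i
      apply Fintype.equivOfCardEq
      rw [mat_id]
      by_cases h : j = i
      · subst h
        simp [T]
      · simp [T, h]
    obtain ⟨σ, hσ⟩ := Phi_conj (beta (𝟙 X.ob) j) β e
    refine ⟨σ, fun R _ a => ?_⟩
    rw [S_apply, hσ]
    congr 1
    rw [Phi_apply]
    ext P Q
    rw [Matrix.submatrix_apply]
    exact Matrix.blockDiagonal'_apply_eq (fun k : (Σ i, T i) => a k.1) ⟨j, ⟨rfl⟩⟩ P Q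
  choose σ hσ using key
  exact ⟨σ, fun R _ a j => hσ j R a⟩

/-- The block-diagonal embeddings are compatible with composition up to a permutation. -/
theorem S_comp (g : X.ob ⟶ Y.ob) (h : Y.ob ⟶ Z.ob) :
    ∃ σ : ∀ j, Equiv.Perm (Fin (Z.u j)), ∀ (R : Type) [CommRing R]
    (a : Blk R X.u) (j), S R h (S R g a) j = (S R (g ≫ h) a j).submatrix (σ j) (σ j) := by
  have key : ∀ j : Fin Z.n, ∃ σ : Equiv.Perm (Fin (Z.u j)), ∀ (R : Type) [CommRing R]
      (a : Blk R X.u), S R h (S R g a) j = (S R (g ≫ h) a j).submatrix σ σ := by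
    intro j
    let T : Fin X.n → Type := fun i => Σ k : (Σ l, Fin (mat h j l)), Fin (mat g k.1 i)
    let γ : (Σ k : (Σ l, Fin (mat h j l)), Fin (Y.u k.1)) ≃ Σ k : (Σ i, T i), Fin (X.u k.1) :=
      { toFun := fun x =>
          ⟨⟨(beta g x.1.1 x.2).1.1, ⟨x.1, (beta g x.1.1 x.2).1.2⟩⟩, (beta g x.1.1 x.2).2⟩
        invFun := fun y =>
          ⟨y.1.2.1, (beta g y.1.2.1.1).symm ⟨⟨y.1.1, y.1.2.2⟩, y.2⟩⟩
        left_inv := by
          rintro ⟨k, x⟩
          exact congrArg (Sigma.mk k) ((beta g k.1).symm_apply_apply x)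
        right_inv := by
          rintro ⟨⟨i, ⟨k, r⟩⟩, p⟩
          have h0 := (beta g k.1).apply_symm_apply ⟨⟨i, r⟩, p⟩
          exact congrArg (fun z : Σ k' : (Σ i, Fin (mat g k.1 i)), Fin (X.u k'.1) =>
            (⟨⟨z.1.1, ⟨k, z.1.2⟩⟩, z.2⟩ : Σ k : (Σ i, T i), Fin (X.u k.1))) h0 }
    have e : ∀ i, T i ≃ Fin (mat (g ≫ h) j i) := by
      intro i
      apply Fintype.equivOfCardEq
      rw [mat_comp]
      simp only [T, Fintype.card_sigma, Fintype.sum_sigma, Fintype.card_fin]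
      simp
    obtain ⟨σ, hσ⟩ := Phi_conj ((beta h j).trans γ) (beta (g ≫ h) j) e
    refine ⟨σ, fun R _ a => ?_⟩
    rw [S_apply (g ≫ h), ← hσ, S_apply, Phi_apply, Phi_apply]
    ext P Q
    simp only [Matrix.submatrix_apply, Equiv.trans_apply]
    generalize beta h j P = x
    generalize beta h j Q = y
    obtain ⟨k, x⟩ := x
    obtain ⟨k', y⟩ := y
    by_cases hk : k = k'
    · subst hk
      rw [Matrix.blockDiagonal'_apply_eq, S_apply, Phi_apply, Matrix.submatrix_apply]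
      show _ = Matrix.blockDiagonal' (fun k : (Σ i, T i) => a k.1)
        ⟨⟨(beta g k.1 x).1.1, ⟨k, (beta g k.1 x).1.2⟩⟩, (beta g k.1 x).2⟩
        ⟨⟨(beta g k.1 y).1.1, ⟨k, (beta g k.1 y).1.2⟩⟩, (beta g k.1 y).2⟩
      generalize beta g k.1 x = x'
      generalize beta g k.1 y = y'
      obtain ⟨⟨i, r⟩, p⟩ := x'
      obtain ⟨⟨i', r'⟩, q⟩ := y'
      by_cases hi : (⟨i, r⟩ : Σ i, Fin (mat g k.1 i)) = ⟨i', r'⟩
      · cases hi
        rw [Matrix.blockDiagonal'_apply_eq]
        exact (Matrix.blockDiagonal'_apply_eq (fun k : (Σ i, T i) => a k.1) ⟨i, ⟨k, r⟩⟩ p q).symm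
      · rw [Matrix.blockDiagonal'_apply_ne _ _ _ hi]
        symm
        apply Matrix.blockDiagonal'_apply_ne (fun k : (Σ i, T i) => a k.1)
        intro h'
        apply hi
        have h2 := congrArg (fun z : Σ i, T i =>
          (⟨z.2.1, ⟨z.1, z.2.2⟩⟩ : Σ k : (Σ l, Fin (mat h j l)), Σ i, Fin (mat g k.1 i))) h'
        exact eq_of_heq (Sigma.mk.inj h2).2
    · rw [Matrix.blockDiagonal'_apply_ne _ _ _ hk]
      symm
      apply Matrix.blockDiagonal'_apply_ne (fun k : (Σ i, T i) => a k.1)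
      intro h'
      exact hk (congrArg (fun z : Σ i, T i => z.2.1) h')
  choose σ hσ using key
  exact ⟨σ, fun R _ a j => hσ j R a⟩

end Sk

end Pool.Agent.H10
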