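import Mathlib
import Pool.Agent.H10.Blocks

/-!
# Generic conjugating matrices and the attached places
-/

namespace Pool.Agent.H10

open CategoryTheory Matrix

/-- The integral block matrices with entries cast to a ring `R`. -/
def castBlk (R : Type*) [CommRing R] {m : ℕ} (u : Fin m → ℕ) : Blk ℤ u →+* Blk R u :=
  mapBlk (Int.castRingHom R) u

theorem mapBlk_castBlk {R S : Type*} [CommRing R] [CommRing S] (f : R →+* S) {m : ℕ}
    {u : Fin m → ℕ} (s : Blk ℤ u) : mapBlk f u (castBlk R u s) = castBlk S u s := by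
  funext i
  ext p q
  simp [castBlk]

theorem isUnit_blk_iff {R : Type*} [CommRing R] {m : ℕ} {u : Fin m → ℕ} (a : Blk R u) :
    IsUnit a ↔ ∀ j, IsUnit (a j).det := by
  rw [Pi.isUnit_iff]
  exact forall_congr' fun j => Matrix.isUnit_iff_isUnit_det _

/-- A system of fields, places and conjugating matrices indexed by the morphisms of `𝒮`. -/
structure PlaceSystem where
  /-- the fields -/
  K : Sk → Type
  [fieldK : ∀ Z, Field (K Z)]
  [charZeroK : ∀ Z, CharZero (K Z)]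
  /-- the local rings of the places -/
  L : ∀ {Y Z : Sk}, (Y.ob ⟶ Z.ob) → Type
  [ringL : ∀ {Y Z : Sk} (h : Y.ob ⟶ Z.ob), CommRing (L h)]
  /-- the inclusion of the local ring -/
  ι : ∀ {Y Z : Sk} (h : Y.ob ⟶ Z.ob), L h →+* K Z
  /-- the residue map of the place -/
  π : ∀ {Y Z : Sk} (h : Y.ob ⟶ Z.ob), L h →+* K Y
  ι_injective : ∀ {Y Z : Sk} (h : Y.ob ⟶ Z.ob), Function.Injective (ι h)
  π_isUnit : ∀ {Y Z : Sk} (h : Y.ob ⟶ Z.ob) (z : L h), π h z ≠ 0 → IsUnit z
  /-- the conjugating matrices -/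
  c : ∀ {X Z : Sk}, (X.ob ⟶ Z.ob) → (Blk (K Z) Z.u)ˣ
  /-- the conjugating matrices over the local rings -/
  C : ∀ {X Y Z : Sk} (_ : X.ob ⟶ Y.ob) (h : Y.ob ⟶ Z.ob), (Blk (L h) Z.u)ˣ
  ι_C : ∀ {X Y Z : Sk} (x : X.ob ⟶ Y.ob) (h : Y.ob ⟶ Z.ob),
    mapBlk (ι h) Z.u (C x h : Blk (L h) Z.u) = (c (x ≫ h) : Blk (K Z) Z.u)
  π_C : ∀ {X Y Z : Sk} (x : X.ob ⟶ Y.ob) (h : Y.ob ⟶ Z.ob) (s : Blk ℤ X.u),
    mapBlk (π h) Z.u (C x h : Blk (L h) Z.u) * Sk.S (K Y) (x ≫ h) (castBlk (K Y) X.u s) =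
      Sk.S (K Y) h ((c x : Blk (K Y) Y.u) * Sk.S (K Y) x (castBlk (K Y) X.u s) *
        ((c x)⁻¹ : (Blk (K Y) Y.u)ˣ)) * mapBlk (π h) Z.u (C x h : Blk (L h) Z.u)

attribute [instance] PlaceSystem.fieldK PlaceSystem.charZeroK PlaceSystem.ringL

namespace Generic

/-- The variables for the object `Z`: the entries of one matrix for each morphism to `Z`. -/
structure Var (Z : Sk) : Type where
  /-- the source of the morphism -/
  src : Sk
  /-- the morphism -/
  mor : src.ob ⟶ Z.ob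
  /-- the block -/
  blk : Fin Z.n
  /-- the row -/
  row : Fin (Z.u blk)
  /-- the column -/
  col : Fin (Z.u blk)

/-- The polynomial ring. -/
abbrev Pol (Z : Sk) : Type := MvPolynomial (Var Z) ℤ

/-- The field of rational functions. -/
abbrev Fld (Z : Sk) : Type := FractionRing (Pol Z)

variable {X Y Z : Sk}

/-- The generic matrix attached to a morphism. -/
noncomputable def G (x : X.ob ⟶ Z.ob) : Blk (Pol Z) Z.u :=
  fun j => Matrix.of fun p q => MvPolynomial.X (⟨X, x, j, p, q⟩ : Var Z)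

theorem det_G_ne_zero (x : X.ob ⟶ Z.ob) (j : Fin Z.n) : (G x j).det ≠ 0 := by
  intro h
  let f : Pol Z →+* ℤ := (MvPolynomial.eval₂Hom (RingHom.id ℤ)
    (fun v : Var Z => if v.row = v.col then 1 else 0))
  have h1 : f (G x j).det = 1 := by
    rw [RingHom.map_det]
    have : f.mapMatrix (G x j) = 1 := by
      ext p q
      rw [RingHom.mapMatrix_apply, Matrix.map_apply, Matrix.one_apply]
      show f (MvPolynomial.X (⟨X, x, j, p, q⟩ : Var Z)) = _
      simp only [f, MvPolynomial.eval₂Hom_X']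
    rw [this, Matrix.det_one]
  rw [h, map_zero] at h1
  exact zero_ne_one h1

theorem isUnit_G (x : X.ob ⟶ Z.ob) :
    IsUnit (mapBlk (algebraMap (Pol Z) (Fld Z)) Z.u (G x)) := by
  rw [isUnit_blk_iff]
  intro j
  rw [isUnit_iff_ne_zero, mapBlk_apply', ← RingHom.mapMatrix_apply, ← RingHom.map_det]
  intro h
  exact det_G_ne_zero x j ((IsFractionRing.injective (Pol Z) (Fld Z)) (by rw [h, map_zero]))

/-- The generic conjugating matrix over the field of rational functions. -/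
noncomputable def c (x : X.ob ⟶ Z.ob) : (Blk (Fld Z) Z.u)ˣ := (isUnit_G x).unit

theorem c_coe (x : X.ob ⟶ Z.ob) :
    (c x : Blk (Fld Z) Z.u) = mapBlk (algebraMap (Pol Z) (Fld Z)) Z.u (G x) := rfl

/-- There is an invertible matrix to which the generic matrix for `x ≫ h` shall specialize. -/
theorem exists_D (x : X.ob ⟶ Y.ob) (h : Y.ob ⟶ Z.ob) :
    ∃ D : (Blk (Fld Y) Z.u)ˣ, ∀ s : Blk (Fld Y) X.u,
      (D : Blk (Fld Y) Z.u) * Sk.S (Fld Y) (x ≫ h) s =
      Sk.S (Fld Y) h ((c x : Blk (Fld Y) Y.u) * Sk.S (Fld Y) x s *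
        ((c x)⁻¹ : (Blk (Fld Y) Y.u)ˣ)) * (D : Blk (Fld Y) Z.u) := by
  obtain ⟨σ, hσ⟩ := Sk.S_comp x h
  let W : Blk (Fld Y) Z.u := fun j =>
    (1 : Matrix (Fin (Z.u j)) (Fin (Z.u j)) (Fld Y)).submatrix (σ j) (Equiv.refl (Fin (Z.u j)))
  have hW : IsUnit W := by
    rw [Pi.isUnit_iff]
    intro j
    exact (Matrix.isUnit_submatrix_equiv (σ j) (Equiv.refl _)).2 isUnit_one
  have hW2 : ∀ s : Blk (Fld Y) X.u, W * Sk.S (Fld Y) (x ≫ h) s =
      Sk.S (Fld Y) h (Sk.S (Fld Y) x s) * W := by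
    intro s
    funext j
    rw [Pi.mul_apply, Pi.mul_apply, hσ]
    have e1 : W j * Sk.S (Fld Y) (x ≫ h) s j =
        (Sk.S (Fld Y) (x ≫ h) s j).submatrix (σ j) (Equiv.refl _) := by
      have := Matrix.submatrix_mul_equiv
        (1 : Matrix (Fin (Z.u j)) (Fin (Z.u j)) (Fld Y)) (Sk.S (Fld Y) (x ≫ h) s j)
        (σ j) (Equiv.refl _) (Equiv.refl _)
      rw [one_mul] at this
      exact this
    have e2 : (Sk.S (Fld Y) (x ≫ h) s j).submatrix (σ j) (σ j) * W j =
        (Sk.S (Fld Y) (x ≫ h) s j).submatrix (σ j) (Equiv.refl _) := by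
      have := Matrix.submatrix_mul_equiv (Sk.S (Fld Y) (x ≫ h) s j)
        (1 : Matrix (Fin (Z.u j)) (Fin (Z.u j)) (Fld Y))
        (σ j) (σ j) (Equiv.refl _)
      rw [mul_one] at this
      exact this
    rw [e1, e2]
  refine ⟨Units.map (Sk.S (Fld Y) h).toMonoidHom (c x) * hW.unit, fun s => ?_⟩
  have e3 : ((Units.map (Sk.S (Fld Y) h).toMonoidHom (c x) * hW.unit :
      (Blk (Fld Y) Z.u)ˣ) : Blk (Fld Y) Z.u) = Sk.S (Fld Y) h (c x) * W := rfl
  rw [e3, mul_assoc, hW2, ← mul_assoc, ← map_mul, ← mul_assoc, ← map_mul]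
  congr 2
  rw [mul_assoc, mul_assoc, Units.inv_mul, mul_one]

/-- An invertible matrix to which the generic matrix for `x ≫ h` shall specialize. -/
noncomputable def D (x : X.ob ⟶ Y.ob) (h : Y.ob ⟶ Z.ob) : (Blk (Fld Y) Z.u)ˣ :=
  (exists_D x h).choose

theorem D_spec (x : X.ob ⟶ Y.ob) (h : Y.ob ⟶ Z.ob) (s : Blk (Fld Y) X.u) :
      (D x h : Blk (Fld Y) Z.u) * Sk.S (Fld Y) (x ≫ h) s =
      Sk.S (Fld Y) h ((c x : Blk (Fld Y) Y.u) * Sk.S (Fld Y) x s *
        ((c x)⁻¹ : (Blk (Fld Y) Y.u)ˣ)) * (D x h : Blk (Fld Y) Z.u) :=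
  (exists_D x h).choose_spec s

open Classical in
/-- The values of the variables under the place attached to `h`. -/
noncomputable def val (h : Y.ob ⟶ Z.ob) (v : Var Z) : Fld Y :=
  if H : ∃ g : v.src.ob ⟶ Y.ob, g ≫ h = v.mor then
    (D H.choose h : Blk (Fld Y) Z.u) v.blk v.row v.col
  else 0

/-- The specialization homomorphism on polynomials attached to `h`. -/
noncomputable def spec (h : Y.ob ⟶ Z.ob) : Pol Z →+* Fld Y :=
  MvPolynomial.eval₂Hom (Int.castRingHom (Fld Y)) (val h)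

/-- Morphisms of `𝒮` are monomorphisms. -/
theorem mono {X Y Z : SimpMon} (h : Y ⟶ Z) (g g' : X ⟶ Y) (H : g ≫ h = g' ≫ h) : g = g' := by
  apply SimpMon.Hom.ext
  apply AddMonoidHom.ext
  intro x
  apply SimpMon.Hom.injective h
  exact DFunLike.congr_fun (congrArg SimpMon.Hom.toHom H) x

theorem spec_G (x : X.ob ⟶ Y.ob) (h : Y.ob ⟶ Z.ob) :
    mapBlk (spec h) Z.u (G (x ≫ h)) = (D x h : Blk (Fld Y) Z.u) := by
  funext j
  ext p q
  rw [mapBlk_apply]
  show spec h (MvPolynomial.X (⟨X, x ≫ h, j, p, q⟩ : Var Z)) = _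
  rw [spec, MvPolynomial.eval₂Hom_X']
  have H : ∃ g : X.ob ⟶ Y.ob, g ≫ h = x ≫ h := ⟨x, rfl⟩
  have hval : val h (⟨X, x ≫ h, j, p, q⟩ : Var Z) =
      (D H.choose h : Blk (Fld Y) Z.u) j p q := by
    unfold val
    rw [dif_pos H]
  rw [hval, mono h _ _ H.choose_spec]

/-- The polynomials with nonzero specialization. -/
noncomputable def T (h : Y.ob ⟶ Z.ob) : Submonoid (Pol Z) :=
  (nonZeroDivisors (Fld Y)).comap (spec h)

theorem mem_T {h : Y.ob ⟶ Z.ob} {b : Pol Z} : b ∈ T h ↔ spec h b ≠ 0 := by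
  rw [T, Submonoid.mem_comap, mem_nonZeroDivisors_iff_ne_zero]

theorem T_le (h : Y.ob ⟶ Z.ob) : T h ≤ nonZeroDivisors (Pol Z) := by
  intro b hb
  rw [mem_nonZeroDivisors_iff_ne_zero]
  rintro rfl
  exact mem_T.1 hb (map_zero _)

/-- The local ring of the place attached to `h`. -/
abbrev Loc (h : Y.ob ⟶ Z.ob) : Type := Localization (T h)

/-- The inclusion of the local ring in the field of rational functions. -/
noncomputable def iota (h : Y.ob ⟶ Z.ob) : Loc h →+* Fld Z :=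
  IsLocalization.lift (M := T h) (g := algebraMap (Pol Z) (Fld Z)) fun b => by
    rw [isUnit_iff_ne_zero]
    intro h0
    have : (b : Pol Z) = 0 := (IsFractionRing.injective (Pol Z) (Fld Z)) (by rw [h0, map_zero])
    exact mem_T.1 b.2 (by rw [this, map_zero])

/-- The residue map of the place attached to `h`. -/
noncomputable def pi (h : Y.ob ⟶ Z.ob) : Loc h →+* Fld Y :=
  IsLocalization.lift (M := T h) (g := spec h) fun b => by
    rw [isUnit_iff_ne_zero]
    exact mem_T.1 b.2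

theorem iota_algebraMap (h : Y.ob ⟶ Z.ob) (a : Pol Z) :
    iota h (algebraMap (Pol Z) (Loc h) a) = algebraMap (Pol Z) (Fld Z) a :=
  IsLocalization.lift_eq _ a

theorem pi_algebraMap (h : Y.ob ⟶ Z.ob) (a : Pol Z) :
    pi h (algebraMap (Pol Z) (Loc h) a) = spec h a :=
  IsLocalization.lift_eq _ a

theorem iota_injective (h : Y.ob ⟶ Z.ob) : Function.Injective (iota h) := by
  rw [injective_iff_map_eq_zero]
  intro z hz
  obtain ⟨a, b, rfl⟩ := IsLocalization.exists_mk'_eq (T h) z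
  have h1 : iota h (IsLocalization.mk' (Loc h) a b) * iota h (algebraMap (Pol Z) (Loc h) b) =
      iota h (algebraMap (Pol Z) (Loc h) a) := by
    rw [← map_mul, IsLocalization.mk'_spec]
  rw [hz, zero_mul, iota_algebraMap] at h1
  have h2 : a = 0 := (IsFractionRing.injective (Pol Z) (Fld Z)) (by rw [← h1, map_zero])
  rw [h2, IsLocalization.mk'_zero]

theorem isUnit_of_pi (h : Y.ob ⟶ Z.ob) (z : Loc h) (hz : pi h z ≠ 0) : IsUnit z := by
  obtain ⟨a, b, rfl⟩ := IsLocalization.exists_mk'_eq (T h) z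
  have h1 : pi h (IsLocalization.mk' (Loc h) a b) * pi h (algebraMap (Pol Z) (Loc h) b) =
      pi h (algebraMap (Pol Z) (Loc h) a) := by
    rw [← map_mul, IsLocalization.mk'_spec]
  rw [pi_algebraMap, pi_algebraMap] at h1
  have ha : a ∈ T h := by
    rw [mem_T, ← h1]
    exact mul_ne_zero hz (mem_T.1 b.2)
  have h3 := IsLocalization.map_units (Loc h) (⟨a, ha⟩ : T h)
  have h4 := IsLocalization.mk'_spec (Loc h) a b
  rw [← h4] at h3
  exact isUnit_of_mul_isUnit_left h3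

theorem isUnit_G_Loc (x : X.ob ⟶ Y.ob) (h : Y.ob ⟶ Z.ob) :
    IsUnit (mapBlk (algebraMap (Pol Z) (Loc h)) Z.u (G (x ≫ h))) := by
  rw [isUnit_blk_iff]
  intro j
  apply isUnit_of_pi
  have hD : IsUnit ((D x h : Blk (Fld Y) Z.u) j).det := (isUnit_blk_iff _).1 (D x h).isUnit j
  rw [mapBlk_apply', ← RingHom.mapMatrix_apply, ← RingHom.map_det, pi_algebraMap,
    RingHom.map_det]
  have : (spec h).mapMatrix (G (x ≫ h) j) = (D x h : Blk (Fld Y) Z.u) j := by
    rw [← spec_G]; rfl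
  rw [this]
  exact hD.ne_zero

/-- The place system built from generic matrices. -/
noncomputable def system : PlaceSystem where
  K := Fld
  fieldK := fun _ => inferInstance
  charZeroK := fun Z => by
    have : Function.Injective (algebraMap (Pol Z) (Fld Z)) := IsFractionRing.injective _ _
    exact charZero_of_injective_algebraMap this
  L := Loc
  ringL := fun _ => inferInstance
  ι := iota
  π := pi
  ι_injective := iota_injective
  π_isUnit := isUnit_of_pi
  c := c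
  C := fun x h => (isUnit_G_Loc x h).unit
  ι_C := by
    intro X Y Z x h
    show mapBlk (iota h) Z.u (mapBlk (algebraMap (Pol Z) (Loc h)) Z.u (G (x ≫ h))) = _
    rw [c_coe]
    funext j
    ext p q
    rw [mapBlk_apply, mapBlk_apply, mapBlk_apply, iota_algebraMap]
  π_C := by
    intro X Y Z x h s
    have : mapBlk (pi h) Z.u (mapBlk (algebraMap (Pol Z) (Loc h)) Z.u (G (x ≫ h))) =
        (D x h : Blk (Fld Y) Z.u) := by
      rw [← spec_G]
      funext j
      ext p q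
      rw [mapBlk_apply, mapBlk_apply, mapBlk_apply, pi_algebraMap]
    show mapBlk (pi h) Z.u (mapBlk (algebraMap (Pol Z) (Loc h)) Z.u (G (x ≫ h))) * _ =
      _ * mapBlk (pi h) Z.u (mapBlk (algebraMap (Pol Z) (Loc h)) Z.u (G (x ≫ h)))
    rw [this]
    exact D_spec x h _

end Generic

end Pool.Agent.H10
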