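import Mathlib
import Pool.Agent.H10.Places

/-!
# The rings `Q(M)` and their exchange property
-/

namespace Pool.Agent.H10

open CategoryTheory Matrix

/-- Conjugation by a unit. -/
def conjHom {R : Type*} [Ring R] (c : Rˣ) : R →+* R where
  toFun a := c * a * (c⁻¹ : Rˣ)
  map_one' := by simp
  map_zero' := by simp
  map_add' a b := by rw [mul_add, add_mul]
  map_mul' a b := by
    rw [← mul_assoc (_ * _ * _), ← mul_assoc (_ * _ * _), mul_assoc (_ * _) _ (c : R),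
      Units.inv_mul, mul_one, ← mul_assoc]

theorem conjHom_apply {R : Type*} [Ring R] (c : Rˣ) (a : R) :
    conjHom c a = c * a * (c⁻¹ : Rˣ) := rfl

section

variable (P : PlaceSystem)

/-- `a` lies over the local ring of the place attached to `h` and specializes to the image of
`b`. -/
def Compat {Y Z : Sk} (h : Y.ob ⟶ Z.ob) (a : Blk (P.K Z) Z.u) (b : Blk (P.K Y) Y.u) : Prop :=
  ∃ z : Blk (P.L h) Z.u, mapBlk (P.ι h) Z.u z = a ∧
    mapBlk (P.π h) Z.u z = Sk.S (P.K Y) h b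

theorem Compat.zero {Y Z : Sk} (h : Y.ob ⟶ Z.ob) : Compat P h 0 0 :=
  ⟨0, by rw [map_zero], by rw [map_zero, map_zero]⟩

theorem Compat.one {Y Z : Sk} (h : Y.ob ⟶ Z.ob) : Compat P h 1 1 :=
  ⟨1, by rw [map_one], by rw [map_one, map_one]⟩

variable {P} in
theorem Compat.add {Y Z : Sk} {h : Y.ob ⟶ Z.ob} {a a' : Blk (P.K Z) Z.u} {b b' : Blk (P.K Y) Y.u}
    (k1 : Compat P h a b) (k2 : Compat P h a' b') : Compat P h (a + a') (b + b') := by
  obtain ⟨z, h1, h2⟩ := k1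
  obtain ⟨w, h3, h4⟩ := k2
  exact ⟨z + w, by rw [map_add, h1, h3], by rw [map_add, map_add, h2, h4]⟩

variable {P} in
theorem Compat.mul {Y Z : Sk} {h : Y.ob ⟶ Z.ob} {a a' : Blk (P.K Z) Z.u} {b b' : Blk (P.K Y) Y.u}
    (k1 : Compat P h a b) (k2 : Compat P h a' b') : Compat P h (a * a') (b * b') := by
  obtain ⟨z, h1, h2⟩ := k1
  obtain ⟨w, h3, h4⟩ := k2
  exact ⟨z * w, by rw [map_mul, h1, h3], by rw [map_mul, map_mul, h2, h4]⟩

variable {P} in
theorem Compat.neg {Y Z : Sk} {h : Y.ob ⟶ Z.ob} {a : Blk (P.K Z) Z.u} {b : Blk (P.K Y) Y.u}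
    (h1 : Compat P h a b) : Compat P h (-a) (-b) := by
  obtain ⟨z, h1, h2⟩ := h1
  exact ⟨-z, by rw [map_neg, h1], by rw [map_neg, map_neg, h2]⟩

/-- The ambient ring: all families indexed by the morphisms from `M` to the skeleton. -/
def Amb (M : SimpMon) : Type := ∀ (X : Sk) (_ : M ⟶ X.ob), Blk (P.K X) X.u

noncomputable instance (M : SimpMon) : Ring (Amb P M) :=
  inferInstanceAs (Ring (∀ (X : Sk) (_ : M ⟶ X.ob), Blk (P.K X) X.u))

/-- Evaluation of a family at a morphism. -/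
noncomputable def Amb.ev {M : SimpMon} {X : Sk} (g : M ⟶ X.ob) : Amb P M →+* Blk (P.K X) X.u :=
  (Pi.evalRingHom (fun _ : (M ⟶ X.ob) => Blk (P.K X) X.u) g).comp
    (Pi.evalRingHom (fun X : Sk => ∀ (_ : M ⟶ X.ob), Blk (P.K X) X.u) X)

theorem Amb.ext {M : SimpMon} {y y' : Amb P M}
    (H : ∀ (X : Sk) (g : M ⟶ X.ob), Amb.ev P g y = Amb.ev P g y') : y = y' :=
  funext fun X => funext fun g => H X g

/-- A family with given components. -/
def Amb.mk {M : SimpMon} (f : ∀ (X : Sk) (_ : M ⟶ X.ob), Blk (P.K X) X.u) : Amb P M := f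

theorem Amb.ev_mk {M : SimpMon} (f : ∀ (X : Sk) (_ : M ⟶ X.ob), Blk (P.K X) X.u) {X : Sk}
    (g : M ⟶ X.ob) : Amb.ev P g (Amb.mk P f) = f X g := rfl

/-- The ring `Q(M)` of compatible families. -/
noncomputable def Q (M : SimpMon) : Subring (Amb P M) where
  carrier := {y | ∀ (Y Z : Sk) (g : M ⟶ Y.ob) (h : Y.ob ⟶ Z.ob),
    Compat P h (Amb.ev P (g ≫ h) y) (Amb.ev P g y)}
  zero_mem' := fun Y Z g h => by rw [map_zero, map_zero]; exact Compat.zero P h
  one_mem' := fun Y Z g h => by rw [map_one, map_one]; exact Compat.one P h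
  add_mem' := fun ha hb Y Z g h => by rw [map_add, map_add]; exact (ha Y Z g h).add (hb Y Z g h)
  mul_mem' := fun ha hb Y Z g h => by rw [map_mul, map_mul]; exact (ha Y Z g h).mul (hb Y Z g h)
  neg_mem' := fun ha Y Z g h => by rw [map_neg, map_neg]; exact (ha Y Z g h).neg

/-- The component of a compatible family, as a ring homomorphism. -/
noncomputable def comp {M : SimpMon} {X : Sk} (g : M ⟶ X.ob) : Q P M →+* Blk (P.K X) X.u :=
  (Amb.ev P g).comp (Q P M).subtype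

theorem comp_compat {M : SimpMon} {Y Z : Sk} (g : M ⟶ Y.ob) (h : Y.ob ⟶ Z.ob) (y : Q P M) :
    Compat P h (comp P (g ≫ h) y) (comp P g y) := y.2 Y Z g h

theorem Q_ext {M : SimpMon} {y y' : Q P M}
    (H : ∀ (X : Sk) (g : M ⟶ X.ob), comp P g y = comp P g y') : y = y' :=
  Subtype.ext (Amb.ext P H)

/-- Construct an element of `Q(M)` from its components. -/
noncomputable def Q.mk {M : SimpMon} (f : ∀ (X : Sk) (_ : M ⟶ X.ob), Blk (P.K X) X.u)
    (hf : ∀ (Y Z : Sk) (g : M ⟶ Y.ob) (h : Y.ob ⟶ Z.ob), Compat P h (f Z (g ≫ h)) (f Y g)) :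
    Q P M := ⟨Amb.mk P f, fun Y Z g h => hf Y Z g h⟩

theorem comp_mk {M : SimpMon} (f : ∀ (X : Sk) (_ : M ⟶ X.ob), Blk (P.K X) X.u)
    (hf : ∀ (Y Z : Sk) (g : M ⟶ Y.ob) (h : Y.ob ⟶ Z.ob), Compat P h (f Z (g ≫ h)) (f Y g))
    {X : Sk} (g : M ⟶ X.ob) : comp P g (Q.mk P f hf) = f X g := rfl

/-- Construct a ring homomorphism to `Q(M)` from its components. -/
noncomputable def Q.lift {R : Type} [Ring R] {M : SimpMon}
    (f : ∀ (X : Sk) (_ : M ⟶ X.ob), R →+* Blk (P.K X) X.u)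
    (hf : ∀ (r : R) (Y Z : Sk) (g : M ⟶ Y.ob) (h : Y.ob ⟶ Z.ob),
      Compat P h (f Z (g ≫ h) r) (f Y g r)) : R →+* Q P M where
  toFun r := Q.mk P (fun X g => f X g r) (hf r)
  map_one' := Q_ext P fun X g => by rw [comp_mk, map_one, map_one]
  map_zero' := Q_ext P fun X g => by rw [comp_mk, map_zero, map_zero]
  map_add' a b := Q_ext P fun X g => by rw [comp_mk, map_add, map_add, comp_mk, comp_mk]
  map_mul' a b := Q_ext P fun X g => by rw [comp_mk, map_mul, map_mul, comp_mk, comp_mk]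

theorem comp_lift {R : Type} [Ring R] {M : SimpMon}
    (f : ∀ (X : Sk) (_ : M ⟶ X.ob), R →+* Blk (P.K X) X.u)
    (hf : ∀ (r : R) (Y Z : Sk) (g : M ⟶ Y.ob) (h : Y.ob ⟶ Z.ob),
      Compat P h (f Z (g ≫ h) r) (f Y g r)) {X : Sk} (g : M ⟶ X.ob) (r : R) :
    comp P g (Q.lift P f hf r) = f X g r := rfl

/-- The functoriality of `Q`. -/
noncomputable def Qmap {M N : SimpMon} (k : M ⟶ N) : Q P M →+* Q P N :=
  Q.lift P (fun X g => comp P (k ≫ g)) fun y Y Z g h => by
    have := comp_compat P (k ≫ g) h y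
    rwa [Category.assoc] at this

theorem comp_Qmap {M N : SimpMon} (k : M ⟶ N) {X : Sk} (g : N ⟶ X.ob) (y : Q P M) :
    comp P g (Qmap P k y) = comp P (k ≫ g) y := rfl

variable {P}

theorem isUnit_of_pi {Y Z : Sk} (h : Y.ob ⟶ Z.ob) (z : Blk (P.L h) Z.u)
    (hz : IsUnit (mapBlk (P.π h) Z.u z)) : IsUnit z := by
  rw [isUnit_blk_iff] at hz ⊢
  intro j
  apply P.π_isUnit h
  have := hz j
  rw [mapBlk_apply', ← RingHom.mapMatrix_apply, ← RingHom.map_det] at this
  exact this.ne_zero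

/-- If `b` is invertible and `a` is compatible with `b`, then `a` is invertible, and the inverses
are compatible. -/
theorem Compat.inv {Y Z : Sk} {h : Y.ob ⟶ Z.ob} {a : Blk (P.K Z) Z.u} {b : Blk (P.K Y) Y.u}
    (hab : Compat P h a b) (hb : IsUnit b) :
    IsUnit a ∧ ∀ a' b', a * a' = 1 → b * b' = 1 → Compat P h a' b' := by
  obtain ⟨z, h1, h2⟩ := hab
  have hz : IsUnit z := by
    apply isUnit_of_pi
    rw [h2]
    exact hb.map _
  refine ⟨by rw [← h1]; exact hz.map _, ?_⟩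
  intro a' b' ha hb'
  obtain ⟨w, rfl⟩ := hz
  refine ⟨(w⁻¹ : (Blk (P.L h) Z.u)ˣ), ?_, ?_⟩
  · have e1 : mapBlk (P.ι h) Z.u (w⁻¹ : (Blk (P.L h) Z.u)ˣ) * a = 1 := by
      rw [← h1, ← map_mul, Units.inv_mul, map_one]
    calc mapBlk (P.ι h) Z.u (w⁻¹ : (Blk (P.L h) Z.u)ˣ)
        = mapBlk (P.ι h) Z.u (w⁻¹ : (Blk (P.L h) Z.u)ˣ) * (a * a') := by rw [ha, mul_one]
      _ = a' := by rw [← mul_assoc, e1, one_mul]
  · have e1 : mapBlk (P.π h) Z.u (w⁻¹ : (Blk (P.L h) Z.u)ˣ) * Sk.S (P.K Y) h b = 1 := by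
      rw [← h2, ← map_mul, Units.inv_mul, map_one]
    calc mapBlk (P.π h) Z.u (w⁻¹ : (Blk (P.L h) Z.u)ˣ)
        = mapBlk (P.π h) Z.u (w⁻¹ : (Blk (P.L h) Z.u)ˣ) * (Sk.S (P.K Y) h b *
          Sk.S (P.K Y) h b') := by rw [← map_mul, hb', map_one, mul_one]
      _ = Sk.S (P.K Y) h b' := by rw [← mul_assoc, e1, one_mul]

/-- Evaluation at an isomorphism reflects units. -/
theorem isUnit_of_comp {M : SimpMon} {X : Sk} (σ : M ≅ X.ob) (y : Q P M)
    (hy : IsUnit (comp P σ.hom y)) : IsUnit y := by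
  have hall : ∀ (Z : Sk) (g : M ⟶ Z.ob), IsUnit (comp P g y) := by
    intro Z g
    have hg : g = σ.hom ≫ (σ.inv ≫ g) := by rw [Iso.hom_inv_id_assoc]
    rw [hg]
    exact ((comp_compat P σ.hom (σ.inv ≫ g) y).inv hy).1
  have hex : ∀ (Z : Sk) (g : M ⟶ Z.ob), ∃ b, comp P g y * b = 1 ∧ b * comp P g y = 1 := by
    intro Z g
    obtain ⟨w, hw⟩ := hall Z g
    exact ⟨(w⁻¹ : (Blk (P.K Z) Z.u)ˣ), by rw [← hw, Units.mul_inv], by rw [← hw, Units.inv_mul]⟩
  choose b hb1 hb2 using hex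
  let y' : Q P M := Q.mk P (fun Z g => b Z g) fun Y Z g h =>
    ((comp_compat P g h y).inv (hall Y g)).2 _ _ (hb1 _ _) (hb1 _ _)
  refine ⟨⟨y, y', ?_, ?_⟩, rfl⟩
  · apply Q_ext
    intro X g
    rw [map_mul, map_one, comp_mk]
    exact hb1 X g
  · apply Q_ext
    intro X g
    rw [map_mul, map_one, comp_mk]
    exact hb2 X g

variable (P)

/-- The conjugated block-diagonal embeddings. -/
noncomputable def tau {X Z : Sk} (x : X.ob ⟶ Z.ob) : Blk ℤ X.u →+* Blk (P.K Z) Z.u :=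
  (conjHom (P.c x)).comp ((Sk.S (P.K Z) x).comp (castBlk (P.K Z) X.u))

theorem tau_apply {X Z : Sk} (x : X.ob ⟶ Z.ob) (s : Blk ℤ X.u) :
    tau P x s = (P.c x : Blk (P.K Z) Z.u) * Sk.S (P.K Z) x (castBlk (P.K Z) X.u s) *
      ((P.c x)⁻¹ : (Blk (P.K Z) Z.u)ˣ) := rfl

theorem tau_compat {X Y Z : Sk} (x : X.ob ⟶ Y.ob) (h : Y.ob ⟶ Z.ob) (s : Blk ℤ X.u) :
    Compat P h (tau P (x ≫ h) s) (tau P x s) := by
  refine ⟨(P.C x h : Blk (P.L h) Z.u) * Sk.S (P.L h) (x ≫ h) (castBlk (P.L h) X.u s) *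
    ((P.C x h)⁻¹ : (Blk (P.L h) Z.u)ˣ), ?_, ?_⟩
  · rw [map_mul, map_mul, P.ι_C, Sk.mapBlk_S, mapBlk_castBlk, tau_apply]
    congr 1
    have h1 : mapBlk (P.ι h) Z.u ((P.C x h)⁻¹ : (Blk (P.L h) Z.u)ˣ) *
        (P.c (x ≫ h) : Blk (P.K Z) Z.u) = 1 := by
      rw [← P.ι_C, ← map_mul, Units.inv_mul, map_one]
    exact Units.eq_inv_of_mul_eq_one_right h1
  · rw [map_mul, map_mul, Sk.mapBlk_S, mapBlk_castBlk, P.π_C, mul_assoc, ← map_mul,
      Units.mul_inv, map_one, mul_one, tau_apply]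

/-- The homomorphism from integral block matrices to `Q(M)`. -/
noncomputable def J {M : SimpMon} {X : Sk} (σ : M ≅ X.ob) : Blk ℤ X.u →+* Q P M :=
  Q.lift P (fun Z g => tau P (σ.inv ≫ g)) fun s Y Z g h => by
    have := tau_compat P (σ.inv ≫ g) h s
    rwa [Category.assoc] at this

theorem comp_J {M : SimpMon} {X : Sk} (σ : M ≅ X.ob) (s : Blk ℤ X.u) :
    comp P σ.hom (J P σ s) = tau P (𝟙 X.ob) s := by
  rw [J, comp_lift, Iso.inv_hom_id]

end

/-- Every square matrix over a field becomes invertible after subtracting a suitable diagonal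
matrix with entries `0` and `1`. -/
theorem exists_diagonal {K : Type*} [Field K] : ∀ (n : ℕ) (A : Matrix (Fin n) (Fin n) K),
    ∃ d : Fin n → ℤ, (∀ i, d i * d i = d i) ∧
      (A - Matrix.diagonal (fun i => (d i : K))).det ≠ 0 := by
  intro n
  induction n with
  | zero =>
    intro A
    refine ⟨fun _ => 0, fun i => by simp, ?_⟩
    rw [Matrix.det_isEmpty]
    exact one_ne_zero
  | succ n ih =>
    intro A
    obtain ⟨d, hd, hdet⟩ := ih (A.submatrix Fin.succ Fin.succ)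
    by_cases h0 : (A - Matrix.diagonal (fun i => ((Fin.cons 0 d : Fin (n + 1) → ℤ) i : K))).det = 0
    · refine ⟨Fin.cons 1 d, ?_, ?_⟩
      · intro i
        refine Fin.cases ?_ ?_ i
        · simp
        · intro i; simp [hd]
      · set M0 := A - Matrix.diagonal (fun i => ((Fin.cons 0 d : Fin (n + 1) → ℤ) i : K)) with hM0
        have e1 : A - Matrix.diagonal (fun i => ((Fin.cons 1 d : Fin (n + 1) → ℤ) i : K)) =
            M0.updateRow 0 (M0 0 + (-1 : K) • (Pi.single 0 1 : Fin (n + 1) → K)) := by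
          ext i j
          refine Fin.cases ?_ ?_ i
          · rw [Matrix.updateRow_self]
            simp only [hM0, Matrix.sub_apply, Pi.add_apply, Pi.smul_apply, smul_eq_mul]
            refine Fin.cases ?_ ?_ j
            · simp
              ring
            · intro j
              simp [(Fin.succ_ne_zero j).symm]
          · intro i
            rw [Matrix.updateRow_ne (Fin.succ_ne_zero i)]
            simp only [hM0, Matrix.sub_apply]
            congr 1
        rw [e1, Matrix.det_updateRow_add, Matrix.det_updateRow_smul, Matrix.updateRow_eq_self,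
          h0, zero_add, ← Matrix.adjugate_apply, Matrix.adjugate_fin_succ_eq_det_submatrix]
        have e2 : M0.submatrix (Fin.succAbove 0) (Fin.succAbove 0) =
            A.submatrix Fin.succ Fin.succ - Matrix.diagonal (fun i => (d i : K)) := by
          ext i j
          simp only [hM0, Matrix.submatrix_apply, Matrix.sub_apply, Fin.succAbove_zero,
            Matrix.diagonal_apply, Fin.succ_inj, Fin.cons_succ]
        rw [e2]
        simpa using hdet
    · refine ⟨Fin.cons 0 d, ?_, h0⟩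
      intro i
      refine Fin.cases ?_ ?_ i
      · simp
      · intro i; simp [hd]

section

variable (P : PlaceSystem)

/-- `Q(M)` is a clean ring. -/
theorem Q_clean {M : SimpMon} {X : Sk} (σ : M ≅ X.ob) (y : Q P M) :
    ∃ f : Q P M, f * f = f ∧ IsUnit (y - f) := by
  obtain ⟨ρ, hρ⟩ := Sk.S_id X
  let c := P.c (𝟙 X.ob)
  let A : Blk (P.K X) X.u := (c⁻¹ : (Blk (P.K X) X.u)ˣ) * comp P σ.hom y * c
  have hex := fun j => exists_diagonal (X.u j) (A j)
  choose d hd hdet using hex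
  let s : Blk ℤ X.u := fun j => Matrix.diagonal (fun p => d j ((ρ j).symm p))
  have hs : s * s = s := by
    funext j
    rw [Pi.mul_apply]
    simp only [s, Matrix.diagonal_mul_diagonal, hd]
  refine ⟨J P σ s, by rw [← map_mul, hs], ?_⟩
  apply isUnit_of_comp σ
  rw [map_sub, comp_J]
  have h1 : IsUnit (A - Sk.S (P.K X) (𝟙 X.ob) (castBlk (P.K X) X.u s)) := by
    rw [isUnit_blk_iff]
    intro j
    rw [Pi.sub_apply, hρ]
    have : ((castBlk (P.K X) X.u s) j).submatrix (ρ j) (ρ j) =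
        Matrix.diagonal (fun i => (d j i : P.K X)) := by
      ext p q
      rw [Matrix.submatrix_apply]
      show ((s j ((ρ j) p) ((ρ j) q) : ℤ) : P.K X) = _
      simp only [s, Matrix.diagonal_apply, EmbeddingLike.apply_eq_iff_eq]
      split_ifs <;> simp
    rw [this]
    exact isUnit_iff_ne_zero.2 (hdet j)
  have h2 : comp P σ.hom y - tau P (𝟙 X.ob) s =
      c * (A - Sk.S (P.K X) (𝟙 X.ob) (castBlk (P.K X) X.u s)) * (c⁻¹ : (Blk (P.K X) X.u)ˣ) := by
    rw [mul_sub, sub_mul, tau_apply]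
    congr 1
    simp only [A, ← mul_assoc, Units.mul_inv, one_mul]
    rw [mul_assoc, Units.mul_inv, mul_one]
  rw [h2]
  exact (c.isUnit.mul h1).mul (c⁻¹).isUnit

end

end Pool.Agent.H10
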