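import Mathlib
import Pool.Agent.H10.QRing

/-!
# Traces and ranks of idempotents over `Q(M)`
-/

namespace Pool.Agent.H10

open CategoryTheory Matrix Finset

/-- An idempotent matrix over a field of characteristic zero has a natural number as trace, and it
vanishes if this number is zero. -/
theorem idempotent_trace {K : Type*} [Field K] [CharZero K] {ι : Type*} [Fintype ι]
    [DecidableEq ι] (E : Matrix ι ι K) (hE : E * E = E) :
    ∃ n : ℕ, E.trace = n ∧ (n = 0 → E = 0) := by
  have hf : IsIdempotentElem (Matrix.toLin' E) := by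
    show Matrix.toLin' E * Matrix.toLin' E = Matrix.toLin' E
    rw [Module.End.mul_eq_comp, ← Matrix.toLin'_mul, hE]
  have hp := LinearMap.IsIdempotentElem.isProj_range _ hf
  refine ⟨Module.finrank K (LinearMap.range (Matrix.toLin' E)), ?_, ?_⟩
  · rw [← Matrix.trace_toLin'_eq, hp.trace]
  · intro h0
    have h1 : LinearMap.range (Matrix.toLin' E) = ⊥ := Submodule.finrank_eq_zero.1 h0
    rw [LinearMap.range_eq_bot] at h1
    exact (LinearEquiv.map_eq_zero_iff Matrix.toLin').1 h1

namespace MInf

section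

variable {R : Type} [Ring R]

/-- The matrix of `M_∞(R)` with a single entry. -/
def single (s t : ℕ) (r : R) : MInf R :=
  ofBdd (fun i j => if i = s ∧ j = t then r else 0) (s + t + 1) (by
    intro i j h
    rw [if_neg]
    omega)

@[simp] theorem entry_single (s t : ℕ) (r : R) (i j : ℕ) :
    (single s t r).entry i j = if i = s ∧ j = t then r else 0 := rfl

theorem single_mul_mul_single (s s' t t' : ℕ) (r r' : R) (a : MInf R) :
    single s s' r * a * single t t' r' = single s t' (r * a.entry s' t * r') := by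
  ext i j
  have h1 : ∀ k, (single s s' r * a).entry i k = if i = s then r * a.entry s' k else 0 := by
    intro k
    rw [entry_mul_def, finsum_eq_single _ s']
    · rw [entry_single]
      by_cases hi : i = s <;> simp [hi]
    · intro l hl
      rw [entry_single, if_neg (by tauto), zero_mul]
  rw [entry_mul_def, finsum_eq_single _ t]
  · rw [h1, entry_single, entry_single]
    by_cases hi : i = s <;> by_cases hj : j = t' <;> simp [hi, hj]
  · intro l hl
    rw [entry_single, if_neg (by tauto), mul_zero]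

theorem single_mul_single (s t t' : ℕ) (r r' : R) :
    single s t r * single t t' r' = single s t' (r * r') := by
  ext i j
  rw [entry_mul_def, finsum_eq_single _ t]
  · rw [entry_single, entry_single, entry_single]
    by_cases hi : i = s <;> by_cases hj : j = t' <;> simp [hi, hj]
  · intro l hl
    rw [entry_single, if_neg (by tauto), zero_mul]

theorem single_zero (s t : ℕ) : single s t (0 : R) = 0 := by
  ext i j
  simp

end

section

variable {R : Type} [Ring R] {K : Type} [Field K] {u : ℕ}
  (ρ : R →+* Matrix (Fin u) (Fin u) K)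

/-- The trace of an element of `M_∞(R)` under a matrix representation of `R`. -/
noncomputable def mtr (a : MInf R) : K := ∑ᶠ s, (ρ (a.entry s s)).trace

theorem mtr_eq {a : MInf R} {N : ℕ} (ha : a.Bdd N) :
    mtr ρ a = ∑ s ∈ range N, (ρ (a.entry s s)).trace := by
  apply finsum_eq_sum_of_support_subset
  intro k hk
  simp only [coe_range, Set.mem_Iio]
  by_contra hcon
  apply hk
  show (ρ (a.entry k k)).trace = 0
  rw [ha k k (Or.inl (by omega)), map_zero, Matrix.trace_zero]

theorem exists_bdd₂ (a b : MInf R) : ∃ N, a.Bdd N ∧ b.Bdd N := by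
  obtain ⟨N, hN⟩ := a.exists_bdd
  obtain ⟨N', hN'⟩ := b.exists_bdd
  exact ⟨max N N', hN.mono (le_max_left _ _), hN'.mono (le_max_right _ _)⟩

theorem mtr_add (a b : MInf R) : mtr ρ (a + b) = mtr ρ a + mtr ρ b := by
  obtain ⟨N, ha, hb⟩ := exists_bdd₂ a b
  have hab : (a + b).Bdd N := fun i j hij => by rw [entry_add, ha i j hij, hb i j hij, add_zero]
  rw [mtr_eq ρ ha, mtr_eq ρ hb, mtr_eq ρ hab, ← Finset.sum_add_distrib]
  exact Finset.sum_congr rfl fun s _ => by rw [entry_add, map_add, Matrix.trace_add]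

theorem mtr_mul_comm (a b : MInf R) : mtr ρ (a * b) = mtr ρ (b * a) := by
  obtain ⟨N, ha, hb⟩ := exists_bdd₂ a b
  rw [mtr_eq ρ (ha.mul hb), mtr_eq ρ (hb.mul ha)]
  simp_rw [entry_mul_left ha, entry_mul_left hb, map_sum, Matrix.trace_sum, map_mul]
  rw [Finset.sum_comm]
  exact Finset.sum_congr rfl fun s _ => Finset.sum_congr rfl fun t _ => by
    rw [Matrix.trace_mul_comm]

/-- The finite matrix over `K` attached to an element of `M_∞(R)`. -/
def fmat (N : ℕ) (a : MInf R) : Matrix (Fin N × Fin u) (Fin N × Fin u) K :=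
  Matrix.of fun x y => ρ (a.entry x.1 y.1) x.2 y.2

theorem fmat_mul {N : ℕ} {a : MInf R} (ha : a.Bdd N) (b : MInf R) :
    fmat ρ N (a * b) = fmat ρ N a * fmat ρ N b := by
  ext x y
  rw [Matrix.mul_apply, Fintype.sum_prod_type]
  show ρ ((a * b).entry x.1 y.1) x.2 y.2 = ∑ s : Fin N, ∑ r, ρ (a.entry x.1 s) x.2 r *
    ρ (b.entry s y.1) r y.2
  rw [entry_mul_left ha, map_sum, Matrix.sum_apply, Finset.sum_range]
  refine Finset.sum_congr rfl fun s _ => ?_
  rw [map_mul, Matrix.mul_apply]

theorem trace_fmat {N : ℕ} {a : MInf R} (ha : a.Bdd N) : (fmat ρ N a).trace = mtr ρ a := by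
  rw [mtr_eq ρ ha, Matrix.trace, Fintype.sum_prod_type, Finset.sum_range]
  rfl

theorem mtr_idempotent [CharZero K] (e : MInf R) (he : e * e = e) :
    ∃ n : ℕ, mtr ρ e = n ∧ (n = 0 → ∀ s t, ρ (e.entry s t) = 0) := by
  obtain ⟨N, hN⟩ := e.exists_bdd
  obtain ⟨n, h1, h2⟩ := idempotent_trace (fmat ρ N e) (by rw [← fmat_mul ρ hN, he])
  refine ⟨n, by rw [← h1, trace_fmat ρ hN], fun h0 s t => ?_⟩
  by_cases hst : s < N ∧ t < N
  · ext p q
    have := congrFun (congrFun (h2 h0) (⟨s, hst.1⟩, p)) (⟨t, hst.2⟩, q)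
    exact this
  · rw [hN s t (by omega), map_zero]

end

end MInf

end Pool.Agent.H10
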