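import Mathlib
import Pool.Agent.H10.Trace

/-!
# The rank map on `V(Q(M))`
-/

namespace Pool.Agent.H10

open CategoryTheory Matrix Finset

section

variable (P : PlaceSystem) {M : SimpMon}

/-- The representation of `Q(M)` given by a block of a component. -/
noncomputable def rep {X : Sk} (g : M ⟶ X.ob) (j : Fin X.n) :
    Q P M →+* Matrix (Fin (X.u j)) (Fin (X.u j)) (P.K X) :=
  (Pi.evalRingHom (fun i => Matrix (Fin (X.u i)) (Fin (X.u i)) (P.K X)) j).comp (comp P g)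

theorem rep_apply {X : Sk} (g : M ⟶ X.ob) (j : Fin X.n) (y : Q P M) :
    rep P g j y = comp P g y j := rfl

/-- The rank of an idempotent at a block of a component. -/
noncomputable def rkI {X : Sk} (g : M ⟶ X.ob) (e : Idem (Q P M)) (j : Fin X.n) : ℕ :=
  (MInf.mtr_idempotent (rep P g j) e.1 e.2).choose

theorem rkI_spec {X : Sk} (g : M ⟶ X.ob) (e : Idem (Q P M)) (j : Fin X.n) :
    MInf.mtr (rep P g j) e.1 = (rkI P g e j : P.K X) :=
  (MInf.mtr_idempotent (rep P g j) e.1 e.2).choose_spec.1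

theorem rkI_zero {X : Sk} (g : M ⟶ X.ob) (e : Idem (Q P M)) (j : Fin X.n)
    (h : rkI P g e j = 0) (s t : ℕ) : rep P g j (e.1.entry s t) = 0 :=
  (MInf.mtr_idempotent (rep P g j) e.1 e.2).choose_spec.2 h s t

theorem rkI_eq_iff {X : Sk} (g : M ⟶ X.ob) (e : Idem (Q P M)) (j : Fin X.n) (n : ℕ) :
    rkI P g e j = n ↔ MInf.mtr (rep P g j) e.1 = (n : P.K X) := by
  rw [rkI_spec]
  exact Nat.cast_inj.symm

theorem rkI_congr {X : Sk} (g : M ⟶ X.ob) {e f : Idem (Q P M)} (h : MvN e f) :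
    rkI P g e = rkI P g f := by
  funext j
  rw [rkI_eq_iff, ← rkI_spec]
  obtain ⟨x, y, h1, h2⟩ := h
  rw [h1, h2, MInf.mtr_mul_comm]

theorem rkI_orthoSum {X : Sk} (g : M ⟶ X.ob) (e f : Idem (Q P M)) (h1 : e.1 * f.1 = 0)
    (h2 : f.1 * e.1 = 0) : rkI P g (V.orthoSum e f h1 h2) = rkI P g e + rkI P g f := by
  funext j
  rw [rkI_eq_iff, Pi.add_apply, Nat.cast_add, ← rkI_spec, ← rkI_spec]
  exact MInf.mtr_add _ _ _

theorem rkI_blockSum {X : Sk} (g : M ⟶ X.ob) (e f : Idem (Q P M)) :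
    rkI P g (V.blockSum e f) = rkI P g e + rkI P g f := by
  let e' : Idem (Q P M) := ⟨MInf.reindex V.even V.even e.1, by rw [MInf.reindex_mul, e.2]⟩
  let f' : Idem (Q P M) := ⟨MInf.reindex V.odd V.odd f.1, by rw [MInf.reindex_mul, f.2]⟩
  rw [rkI_congr P g (V.mvn_reindex V.even e e' rfl), rkI_congr P g (V.mvn_reindex V.odd f f' rfl),
    ← rkI_orthoSum P g e' f' (MInf.reindex_mul_reindex_zero _ _ _ _ V.even_ne_odd _ _)
      (MInf.reindex_mul_reindex_zero _ _ _ _ V.odd_ne_even _ _)]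
  rfl

theorem rkI_zeroIdem {X : Sk} (g : M ⟶ X.ob) : rkI P g (V.zeroIdem : Idem (Q P M)) = 0 := by
  funext j
  rw [rkI_eq_iff]
  show MInf.mtr _ 0 = _
  rw [MInf.mtr_eq _ (N := 0) (fun i j _ => rfl)]
  simp

/-- The rank vector as a homomorphism on `V(Q(M))`. -/
noncomputable def rk {X : Sk} (g : M ⟶ X.ob) : V (Q P M) →+ (Fin X.n → ℕ) where
  toFun := Quotient.lift (rkI P g) fun _ _ h => rkI_congr P g h
  map_zero' := rkI_zeroIdem P g
  map_add' x y := by
    induction x using V.ind with | _ e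
    induction y using V.ind with | _ f
    exact rkI_blockSum P g e f

@[simp] theorem rk_mk {X : Sk} (g : M ⟶ X.ob) (e : Idem (Q P M)) :
    rk P g (V.mk e) = rkI P g e := rfl

/-- The rank vectors transform by the morphisms of `𝒮`. -/
theorem rkI_comp {Y Z : Sk} (g : M ⟶ Y.ob) (h : Y.ob ⟶ Z.ob) (e : Idem (Q P M)) :
    rkI P (g ≫ h) e = Sk.fn h (rkI P g e) := by
  funext j
  rw [rkI_eq_iff, Sk.fn_apply]
  obtain ⟨N, hN⟩ := e.1.exists_bdd
  have hex := fun s => comp_compat P g h (e.1.entry s s)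
  choose z hz1 hz2 using hex
  have e1 : MInf.mtr (rep P (g ≫ h) j) e.1 = P.ι h (∑ s ∈ range N, (z s j).trace) := by
    rw [MInf.mtr_eq _ hN, map_sum]
    refine Finset.sum_congr rfl fun s _ => ?_
    rw [rep_apply, ← hz1, mapBlk_apply', Matrix.trace, Matrix.trace, map_sum]
    rfl
  have e2 : P.π h (∑ s ∈ range N, (z s j).trace) =
      ((∑ i, Sk.mat h j i * rkI P g e i : ℕ) : P.K Y) := by
    rw [map_sum]
    have : ∀ s, P.π h (z s j).trace =
        ∑ i, (Sk.mat h j i : P.K Y) * (comp P g (e.1.entry s s) i).trace := by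
      intro s
      rw [← Sk.trace_S, ← hz2, mapBlk_apply', Matrix.trace, Matrix.trace, map_sum]
      rfl
    simp_rw [this]
    rw [Finset.sum_comm, Nat.cast_sum]
    refine Finset.sum_congr rfl fun i _ => ?_
    rw [Nat.cast_mul, ← rkI_spec, MInf.mtr_eq _ hN, Finset.mul_sum]
    rfl
  have e3 := rkI_spec P (g ≫ h) e j
  rw [e1] at e3
  have e4 : ∑ s ∈ range N, (z s j).trace = ((rkI P (g ≫ h) e j : ℕ) : P.L h) := by
    apply P.ι_injective h
    rw [e3, map_natCast]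
  rw [e4, map_natCast] at e2
  rw [← rkI_eq_iff]
  exact_mod_cast e2

end

end Pool.Agent.H10
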