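import Mathlib
import Pool.Agent.H10.Rank

/-!
# Splitting off primitive idempotents
-/

namespace Pool.Agent.H10

open CategoryTheory Matrix Finset

section Ring

variable {R : Type} [Ring R]

/-- The idempotent of `M_∞(R)` with the idempotent `ε` of `R` in the corner. -/
def singleIdem (ε : R) (hε : ε * ε = ε) : Idem R :=
  ⟨MInf.single 0 0 ε, by rw [MInf.single_mul_single, hε]⟩

/-- If `w = b₀ x a₀` becomes invertible in the corner of the idempotent `ε`, then every idempotent
of `M_∞(R)` having `x` as an entry splits off a copy of `ε`. -/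
theorem split_off (e : Idem R) (s t : ℕ) (ε a₀ b₀ v : R) (hε : ε * ε = ε) (ha : a₀ * ε = a₀)
    (hb : ε * b₀ = b₀) (hv1 : (b₀ * e.1.entry s t * a₀ + (1 - ε)) * v = 1)
    (hv2 : v * (b₀ * e.1.entry s t * a₀ + (1 - ε)) = 1) :
    ∃ e'' : Idem R, V.mk e = V.mk (singleIdem ε hε) + V.mk e'' := by
  set w := b₀ * e.1.entry s t * a₀ with hw
  have hεw : ε * w = w := by rw [hw, ← mul_assoc, ← mul_assoc, hb]
  have hwε : w * ε = w := by rw [hw, mul_assoc, ha]
  have h1 : w * v = ε := by
    calc w * v = ε * ((w + (1 - ε)) * v) := by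
          rw [← mul_assoc, mul_add, hεw, mul_sub, mul_one, hε, sub_self, add_zero]
      _ = ε := by rw [hv1, mul_one]
  have h2 : v * w = ε := by
    calc v * w = (v * (w + (1 - ε))) * ε := by
          rw [mul_assoc, add_mul, hwε, sub_mul, one_mul, hε, sub_self, add_zero]
      _ = ε := by rw [hv2, one_mul]
  let a : MInf R := e.1 * MInf.single t 0 a₀
  let b : MInf R := MInf.single 0 s b₀ * e.1
  let W : MInf R := MInf.single 0 0 v
  have hba : b * a = MInf.single 0 0 w := by
    show MInf.single 0 s b₀ * e.1 * (e.1 * MInf.single t 0 a₀) = _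
    rw [← mul_assoc, mul_assoc (MInf.single 0 s b₀) e.1 e.1, e.2, MInf.single_mul_mul_single]
  have hea : e.1 * a = a := by
    show e.1 * (e.1 * _) = e.1 * _
    rw [← mul_assoc, e.2]
  have hbe : b * e.1 = b := by
    show _ * e.1 * e.1 = _ * e.1
    rw [mul_assoc, e.2]
  have haε : a * MInf.single 0 0 ε = a := by
    show e.1 * MInf.single t 0 a₀ * MInf.single 0 0 ε = e.1 * MInf.single t 0 a₀
    rw [mul_assoc, MInf.single_mul_single, ha]
  let e' : MInf R := a * W * b
  have hbaW : b * (a * W) = MInf.single 0 0 ε := by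
    rw [← mul_assoc, hba, MInf.single_mul_single, h1]
  have he' : e' * e' = e' := by
    calc e' * e' = a * (W * (b * a)) * W * b := by
          simp only [e', mul_assoc]
      _ = a * W * b := by
          rw [hba, MInf.single_mul_single, h2, haε]
  have hee' : e.1 * e' = e' := by
    simp only [e', ← mul_assoc, hea]
  have he'e : e' * e.1 = e' := by
    simp only [e', mul_assoc, hbe]
  let E' : Idem R := ⟨e', he'⟩
  let E'' : Idem R := ⟨e.1 - e', by
    rw [mul_sub, sub_mul, sub_mul, e.2, hee', he'e, he']; abel⟩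
  have o1 : E'.1 * E''.1 = 0 := by
    show e' * (e.1 - e') = 0
    rw [mul_sub, he'e, he', sub_self]
  have o2 : E''.1 * E'.1 = 0 := by
    show (e.1 - e') * e' = 0
    rw [sub_mul, hee', he', sub_self]
  refine ⟨E'', ?_⟩
  have h3 : V.mk (singleIdem ε hε) = V.mk E' := V.mk_eq.2 ⟨b, a * W, hbaW.symm, rfl⟩
  rw [h3, V.mk_add_mk_of_orthogonal' E' E'' o1 o2]
  congr 1
  apply Subtype.ext
  show e.1 = e' + (e.1 - e')
  abel

end Ring

section

variable (P : PlaceSystem) {M : SimpMon}

/-- The integral matrix unit with entry `1` at `(p, q)` of block `i`. -/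
def eUnit {X : Sk} (i : Fin X.n) (p q : Fin (X.u i)) : Blk ℤ X.u :=
  Pi.single i (Matrix.single p q 1)

theorem eUnit_mul {X : Sk} (i : Fin X.n) (p q r : Fin (X.u i)) :
    eUnit i p q * eUnit i q r = eUnit i p r := by
  rw [eUnit, eUnit, eUnit, ← Pi.single_mul, Matrix.single_mul_single_same, mul_one]

/-- The first index in a block. -/
def z0 {X : Sk} (i : Fin X.n) : Fin (X.u i) := ⟨0, X.pos i⟩

/-- The primitive idempotent of `Q(M)` attached to a block. -/
noncomputable def eps {X : Sk} (σ : M ≅ X.ob) (i : Fin X.n) : Q P M :=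
  J P σ (eUnit i (z0 i) (z0 i))

theorem eps_mul {X : Sk} (σ : M ≅ X.ob) (i : Fin X.n) :
    eps P σ i * eps P σ i = eps P σ i := by
  rw [eps, ← map_mul, eUnit_mul]

/-- The idempotent of `M_∞(Q(M))` attached to a block. -/
noncomputable def epsI {X : Sk} (σ : M ≅ X.ob) (i : Fin X.n) : Idem (Q P M) :=
  singleIdem (eps P σ i) (eps_mul P σ i)

/-- In a matrix algebra over a field, `λ E + (1 - E)` is invertible for `λ ≠ 0` and `E` an
idempotent. -/
theorem isUnit_smul_idem {K A : Type*} [Field K] [Ring A] [Algebra K A] (l : K) (hl : l ≠ 0)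
    (E : A) (hE : E * E = E) : IsUnit (l • E + (1 - E)) := by
  have h1 : (l • E + (1 - E)) * (l⁻¹ • E + (1 - E)) = 1 := by
    simp only [mul_add, add_mul, mul_sub, sub_mul, smul_mul_assoc, mul_smul_comm, smul_smul, hE,
      mul_one, one_mul, sub_self, add_zero, one_smul, inv_mul_cancel₀ hl]
    abel
  have h2 : (l⁻¹ • E + (1 - E)) * (l • E + (1 - E)) = 1 := by
    simp only [mul_add, add_mul, mul_sub, sub_mul, smul_mul_assoc, mul_smul_comm, smul_smul, hE,
      mul_one, one_mul, sub_self, add_zero, mul_inv_cancel₀ hl, one_smul]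
    abel
  exact ⟨⟨_, _, h1, h2⟩, rfl⟩

/-- If an idempotent has nonzero rank at block `i`, it splits off the primitive idempotent. -/
theorem split_eps {X : Sk} (σ : M ≅ X.ob) (e : Idem (Q P M)) (i : Fin X.n)
    (hi : rkI P σ.hom e i ≠ 0) : ∃ e'' : Idem (Q P M), V.mk e = V.mk (epsI P σ i) + V.mk e'' := by
  -- a nonzero entry
  have hne : ∃ s t, rep P σ.hom i (e.1.entry s t) ≠ 0 := by
    by_contra hcon
    push Not at hcon
    apply hi
    rw [rkI_eq_iff]
    obtain ⟨N, hN⟩ := e.1.exists_bdd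
    rw [MInf.mtr_eq _ hN]
    simp [hcon]
  obtain ⟨s, t, hst⟩ := hne
  set x := e.1.entry s t with hx
  obtain ⟨ρ, hρ⟩ := Sk.S_id X
  let c := P.c (𝟙 X.ob)
  let A : Blk (P.K X) X.u := (c⁻¹ : (Blk (P.K X) X.u)ˣ) * comp P σ.hom x * c
  have hA : comp P σ.hom x = c * A * (c⁻¹ : (Blk (P.K X) X.u)ˣ) := by
    simp only [A, ← mul_assoc, Units.mul_inv, one_mul]
    rw [mul_assoc, Units.mul_inv, mul_one]
  have hAi : A i ≠ 0 := by
    intro h0
    apply hst
    rw [rep_apply, hA, Pi.mul_apply, Pi.mul_apply, h0, mul_zero, zero_mul]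
  have hpq : ∃ p q, A i p q ≠ 0 := by
    by_contra hcon
    push Not at hcon
    exact hAi (by ext p q; exact hcon p q)
  obtain ⟨p, q, hpq⟩ := hpq
  -- the embedded matrix units
  have hS : ∀ p' q' : Fin (X.u i), Sk.S (P.K X) (𝟙 X.ob) (castBlk (P.K X) X.u (eUnit i p' q')) =
      Pi.single i (Matrix.single ((ρ i).symm p') ((ρ i).symm q') 1) := by
    intro p' q'
    funext j
    rw [hρ]
    have hc : castBlk (P.K X) X.u (eUnit i p' q') = Pi.single i (Matrix.single p' q' 1) := by
      funext k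
      by_cases hk : k = i
      · subst hk
        ext a b
        show ((eUnit k p' q' k a b : ℤ) : P.K X) = _
        rw [eUnit, Pi.single_eq_same, Pi.single_eq_same, Matrix.single_apply, Matrix.single_apply]
        split_ifs <;> simp
      · ext a b
        show ((eUnit i p' q' k a b : ℤ) : P.K X) = _
        rw [eUnit, Pi.single_eq_of_ne hk, Pi.single_eq_of_ne hk]
        simp
    rw [hc]
    by_cases hj : j = i
    · subst hj
      rw [Pi.single_eq_same, Pi.single_eq_same]
      ext a b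
      rw [Matrix.submatrix_apply, Matrix.single_apply, Matrix.single_apply]
      simp only [Equiv.symm_apply_eq]
    · rw [Pi.single_eq_of_ne hj, Pi.single_eq_of_ne hj]
      rfl
  let z1 : Fin (X.u i) := (ρ i).symm (z0 i)
  let E1 : Blk (P.K X) X.u := Pi.single i (Matrix.single z1 z1 1)
  have hE1 : E1 * E1 = E1 := by
    rw [← Pi.single_mul, Matrix.single_mul_single_same, mul_one]
  have hcε : comp P σ.hom (eps P σ i) = c * E1 * (c⁻¹ : (Blk (P.K X) X.u)ˣ) := by
    rw [eps, comp_J, tau_apply, hS]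
  let b₀ : Q P M := J P σ (eUnit i (z0 i) (ρ i p))
  let a₀ : Q P M := J P σ (eUnit i (ρ i q) (z0 i))
  have hb : eps P σ i * b₀ = b₀ := by
    rw [eps, ← map_mul, eUnit_mul]
  have ha : a₀ * eps P σ i = a₀ := by
    rw [eps, ← map_mul, eUnit_mul]
  have hcomp : comp P σ.hom (b₀ * x * a₀ + (1 - eps P σ i)) =
      c * ((A i p q) • E1 + (1 - E1)) * (c⁻¹ : (Blk (P.K X) X.u)ˣ) := by
    rw [map_add, map_sub, map_one, hcε, map_mul, map_mul, hA, comp_J, comp_J, tau_apply, tau_apply,
      hS, hS, Equiv.symm_apply_apply, Equiv.symm_apply_apply]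
    have h3 : (Pi.single i (Matrix.single z1 p 1) : Blk (P.K X) X.u) * A *
        (Pi.single i (Matrix.single q z1 1) : Blk (P.K X) X.u) = (A i p q) • E1 := by
      funext j
      by_cases hj : j = i
      · subst hj
        have hE : E1 j = Matrix.single z1 z1 1 := Pi.single_eq_same _ _
        rw [Pi.mul_apply, Pi.mul_apply, Pi.single_eq_same, Pi.single_eq_same, Pi.smul_apply,
          hE, Matrix.single_mul_mul_single, Matrix.smul_single]
        simp
      · have hE : E1 j = 0 := Pi.single_eq_of_ne hj _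
        rw [Pi.mul_apply, Pi.mul_apply, Pi.single_eq_of_ne hj, Pi.single_eq_of_ne hj,
          Pi.smul_apply, hE]
        simp
    have h4 : (c : Blk (P.K X) X.u) * (Pi.single i (Matrix.single z1 p 1) : Blk (P.K X) X.u) *
        (c⁻¹ : (Blk (P.K X) X.u)ˣ) * (c * A * (c⁻¹ : (Blk (P.K X) X.u)ˣ)) *
        (c * (Pi.single i (Matrix.single q z1 1) : Blk (P.K X) X.u) *
          (c⁻¹ : (Blk (P.K X) X.u)ˣ)) = c * ((A i p q) • E1) * (c⁻¹ : (Blk (P.K X) X.u)ˣ) := by
      rw [← h3]
      simp only [mul_assoc, Units.inv_mul_cancel_left]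
    have h5 : (1 : Blk (P.K X) X.u) = c * 1 * (c⁻¹ : (Blk (P.K X) X.u)ˣ) := by
      rw [mul_one, Units.mul_inv]
    have h6 : (P.c (𝟙 X.ob) : Blk (P.K X) X.u) = (c : Blk (P.K X) X.u) := rfl
    rw [h6, h4, mul_add, add_mul, mul_sub, sub_mul, ← h5]
  have hunit : IsUnit (b₀ * x * a₀ + (1 - eps P σ i)) := by
    apply isUnit_of_comp σ
    rw [hcomp]
    exact (c.isUnit.mul (isUnit_smul_idem (A i p q) hpq E1 hE1)).mul (c⁻¹).isUnit
  obtain ⟨y, hy⟩ := hunit
  exact split_off e s t (eps P σ i) a₀ b₀ (y⁻¹ : (Q P M)ˣ) (eps_mul P σ i) ha hb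
    (by rw [← hx, ← hy, Units.mul_inv]) (by rw [← hx, ← hy, Units.inv_mul])

/-- The rank vector of the primitive idempotents. -/
theorem rkI_eps {X : Sk} (σ : M ≅ X.ob) (i : Fin X.n) :
    rkI P σ.hom (epsI P σ i) = Pi.single i 1 := by
  funext j
  rw [rkI_eq_iff]
  have hbdd : (epsI P σ i).1.Bdd 1 := by
    intro a b hab
    show (MInf.single 0 0 _).entry a b = 0
    rw [MInf.entry_single, if_neg (by omega)]
  rw [MInf.mtr_eq _ hbdd, Finset.sum_range_one]
  have h0 : (epsI P σ i).1.entry 0 0 = eps P σ i := by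
    show (MInf.single 0 0 _).entry 0 0 = _
    rw [MInf.entry_single, if_pos ⟨rfl, rfl⟩]
  rw [h0, rep_apply, eps, comp_J, tau_apply, Pi.mul_apply, Pi.mul_apply, Matrix.trace_mul_comm,
    ← mul_assoc]
  have h1 : (((P.c (𝟙 X.ob))⁻¹ : (Blk (P.K X) X.u)ˣ) : Blk (P.K X) X.u) j *
      (P.c (𝟙 X.ob) : Blk (P.K X) X.u) j = 1 := by
    rw [← Pi.mul_apply, Units.inv_mul, Pi.one_apply]
  rw [h1, one_mul, Sk.trace_S]
  rw [Finset.sum_eq_single j]
  · rw [Sk.mat_id, if_pos rfl, Nat.cast_one, one_mul]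
    have h2 : (castBlk (P.K X) X.u (eUnit i (z0 i) (z0 i)) j).trace =
        (((eUnit i (z0 i) (z0 i) j).trace : ℤ) : P.K X) := by
      rw [Matrix.trace, Matrix.trace, Int.cast_sum]
      rfl
    rw [h2]
    by_cases hj : j = i
    · subst hj
      rw [eUnit, Pi.single_eq_same, Pi.single_eq_same, Matrix.trace_single_eq_same]
      simp
    · rw [eUnit, Pi.single_eq_of_ne hj, Pi.single_eq_of_ne hj]
      simp
  · intro l _ hl
    rw [Sk.mat_id, if_neg (Ne.symm hl)]
    simp
  · intro h
    exact absurd (Finset.mem_univ j) h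

/-- An idempotent of rank zero is zero. -/
theorem eq_zero_of_rkI {X : Sk} (σ : M ≅ X.ob) (e : Idem (Q P M)) (h : rkI P σ.hom e = 0) :
    V.mk e = 0 := by
  rw [V.zero_def]
  congr 1
  apply Subtype.ext
  apply MInf.ext
  intro s t
  show e.1.entry s t = 0
  apply Q_ext
  intro Z g
  rw [map_zero]
  have hg : g = σ.hom ≫ (σ.inv ≫ g) := by rw [Iso.hom_inv_id_assoc]
  have hz : rkI P g e = 0 := by
    rw [hg, rkI_comp, h, map_zero]
  funext j
  exact rkI_zero P g e j (congrFun hz j) s t

/-- Every class is determined by its rank vector. -/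
theorem mk_eq_sum {X : Sk} (σ : M ≅ X.ob) : ∀ (n : ℕ) (e : Idem (Q P M)),
    ∑ i, rkI P σ.hom e i = n →
      V.mk e = ∑ i, rkI P σ.hom e i • V.mk (epsI P σ i) := by
  intro n
  induction n with
  | zero =>
    intro e he
    have h0 : rkI P σ.hom e = 0 := by
      funext i
      exact (Finset.sum_eq_zero_iff.1 he) i (Finset.mem_univ i)
    rw [eq_zero_of_rkI P σ e h0, h0]
    simp
  | succ n ih =>
    intro e he
    have hi : ∃ i, rkI P σ.hom e i ≠ 0 := by
      by_contra hcon
      push Not at hcon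
      simp [hcon] at he
    obtain ⟨i, hi⟩ := hi
    obtain ⟨e'', he''⟩ := split_eps P σ e i hi
    have hrk : rkI P σ.hom e = Pi.single i 1 + rkI P σ.hom e'' := by
      have := congrArg (rk P σ.hom) he''
      rw [map_add, rk_mk, rk_mk, rk_mk, rkI_eps] at this
      exact this
    have hsum : ∑ j, rkI P σ.hom e'' j = n := by
      rw [hrk] at he
      simp only [Pi.add_apply, Finset.sum_add_distrib, Finset.sum_pi_single', Finset.mem_univ,
        if_true] at he
      omega
    rw [he'', ih e'' hsum, hrk]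
    simp only [Pi.add_apply, add_smul, Finset.sum_add_distrib]
    congr 1
    rw [Finset.sum_eq_single i]
    · rw [Pi.single_eq_same, one_smul]
    · intro j _ hj
      rw [Pi.single_eq_of_ne hj, zero_smul]
    · intro h
      exact absurd (Finset.mem_univ i) h

theorem rk_bijective {X : Sk} (σ : M ≅ X.ob) : Function.Bijective (rk P σ.hom) := by
  constructor
  · intro x y hxy
    induction x using V.ind with | _ e
    induction y using V.ind with | _ f
    rw [rk_mk, rk_mk] at hxy
    rw [mk_eq_sum P σ _ e rfl, mk_eq_sum P σ _ f rfl, hxy]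
  · intro x
    refine ⟨∑ i, x i • V.mk (epsI P σ i), ?_⟩
    rw [map_sum]
    funext j
    rw [Finset.sum_apply, Finset.sum_eq_single j]
    · rw [map_nsmul, rk_mk, rkI_eps, Pi.smul_apply, Pi.single_eq_same, smul_eq_mul, mul_one]
    · intro i _ hi
      rw [map_nsmul, rk_mk, rkI_eps, Pi.smul_apply, Pi.single_eq_of_ne (Ne.symm hi), smul_zero]
    · intro h
      exact absurd (Finset.mem_univ j) h

end

end Pool.Agent.H10
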